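import Mathlib

/-!
# `8AB = F_p`
-/

set_option autoImplicit false
open Finset
open scoped Pointwise Combinatorics.Additive

namespace Pool.Agent.C24e09

variable {p : ℕ} [Fact p.Prime]

theorem energy_dilate (D : Finset (ZMod p)) (ξ : ZMod p) (hξ : ξ ≠ 0) :
    E[D, D.image (ξ * ·)] ≤
      #{x ∈ (D ×ˢ D) ×ˢ (D ×ˢ D) | x.1.1 + ξ * x.2.1 = x.1.2 + ξ * x.2.2} := by
  unfold addEnergy
  apply card_le_card_of_injOn (fun x => (x.1, (ξ⁻¹ * x.2.1, ξ⁻¹ * x.2.2)))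
  · rintro ⟨⟨a, a'⟩, ⟨b, b'⟩⟩ hx
    simp only [coe_filter, Set.mem_ofPred_eq, mem_product, mem_image] at hx ⊢
    obtain ⟨⟨⟨h1, h2⟩, ⟨c, hc, rfl⟩, ⟨d, hd, rfl⟩⟩, h3⟩ := hx
    rw [← mul_assoc, ← mul_assoc, inv_mul_cancel₀ hξ, one_mul, one_mul]
    exact ⟨⟨⟨h1, h2⟩, hc, hd⟩, h3⟩
  · rintro ⟨⟨a, a'⟩, ⟨b, b'⟩⟩ _ ⟨⟨c, c'⟩, ⟨d, d'⟩⟩ _ h
    simp only [Prod.mk.injEq] at h
    obtain ⟨⟨h1, h2⟩, h3, h4⟩ := h
    rw [h1, h2, mul_left_cancel₀ (inv_ne_zero hξ) h3, mul_left_cancel₀ (inv_ne_zero hξ) h4]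

theorem sum_energy (D : Finset (ZMod p)) :
    ∑ ξ ∈ univ.erase (0 : ZMod p),
      #{x ∈ (D ×ˢ D) ×ˢ (D ×ˢ D) | x.1.1 + ξ * x.2.1 = x.1.2 + ξ * x.2.2} ≤
      #D ^ 2 * (p - 1) + #D ^ 4 := by
  simp only [card_filter]
  rw [sum_comm, ← sum_filter_add_sum_filter_not _ (fun x => x.2.1 = x.2.2)]
  apply Nat.add_le_add
  · rw [← sum_filter_add_sum_filter_not _ (fun x => x.1.1 = x.1.2)]
    have e1 : ∑ x ∈ {x ∈ {x ∈ (D ×ˢ D) ×ˢ (D ×ˢ D) | x.2.1 = x.2.2} | ¬ x.1.1 = x.1.2},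
        ∑ ξ ∈ univ.erase (0 : ZMod p),
        (if x.1.1 + ξ * x.2.1 = x.1.2 + ξ * x.2.2 then 1 else 0) = 0 := by
      refine sum_eq_zero fun x hx => sum_eq_zero fun ξ _ => ?_
      rw [mem_filter, mem_filter] at hx
      rw [if_neg]
      rw [hx.1.2]
      intro h
      exact hx.2 (add_right_cancel h)
    rw [e1, add_zero]
    calc ∑ x ∈ {x ∈ {x ∈ (D ×ˢ D) ×ˢ (D ×ˢ D) | x.2.1 = x.2.2} | x.1.1 = x.1.2},
        ∑ ξ ∈ univ.erase (0 : ZMod p),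
        (if x.1.1 + ξ * x.2.1 = x.1.2 + ξ * x.2.2 then 1 else 0)
        ≤ ∑ x ∈ {x ∈ {x ∈ (D ×ˢ D) ×ˢ (D ×ˢ D) | x.2.1 = x.2.2} | x.1.1 = x.1.2}, (p - 1) := by
          refine sum_le_sum fun x _ => ?_
          rw [← card_filter]
          refine (card_le_card (filter_subset _ _)).trans ?_
          rw [card_erase_of_mem (mem_univ _), card_univ, ZMod.card]
      _ = #{x ∈ {x ∈ (D ×ˢ D) ×ˢ (D ×ˢ D) | x.2.1 = x.2.2} | x.1.1 = x.1.2} * (p - 1) := by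
          rw [sum_const, smul_eq_mul]
      _ ≤ #D ^ 2 * (p - 1) := by
          apply Nat.mul_le_mul_right
          rw [sq, ← card_product]
          apply card_le_card_of_injOn (fun x => (x.1.1, x.2.1))
          · rintro ⟨⟨a, a'⟩, ⟨b, b'⟩⟩ hx
            simp only [coe_filter, Set.mem_ofPred_eq, mem_product, mem_filter, coe_product,
              Set.mem_prod, mem_coe] at hx ⊢
            exact ⟨hx.1.1.1.1, hx.1.1.2.1⟩
          · rintro ⟨⟨a, a'⟩, ⟨b, b'⟩⟩ hx ⟨⟨c, c'⟩, ⟨d, d'⟩⟩ hy h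
            simp only [coe_filter, Set.mem_ofPred_eq, mem_product, mem_filter, Prod.mk.injEq]
              at hx hy h ⊢
            obtain ⟨⟨-, h1⟩, h2⟩ := hx
            obtain ⟨⟨-, h3⟩, h4⟩ := hy
            refine ⟨⟨h.1, ?_⟩, h.2, ?_⟩
            · rw [← h2, ← h4]; exact h.1
            · rw [← h1, ← h3]; exact h.2
  · calc ∑ x ∈ {x ∈ (D ×ˢ D) ×ˢ (D ×ˢ D) | ¬ x.2.1 = x.2.2},
        ∑ ξ ∈ univ.erase (0 : ZMod p),
        (if x.1.1 + ξ * x.2.1 = x.1.2 + ξ * x.2.2 then 1 else 0)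
        ≤ ∑ x ∈ {x ∈ (D ×ˢ D) ×ˢ (D ×ˢ D) | ¬ x.2.1 = x.2.2}, 1 := by
          refine sum_le_sum fun x hx => ?_
          rw [← card_filter, card_le_one]
          rw [mem_filter] at hx
          intro ξ h1 ξ' h2
          rw [mem_filter] at h1 h2
          have h3 : (ξ - ξ') * (x.2.1 - x.2.2) = 0 := by
            linear_combination h1.2 - h2.2
          rcases mul_eq_zero.mp h3 with h4 | h4
          · exact sub_eq_zero.mp h4
          · exact absurd (sub_eq_zero.mp h4) hx.2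
      _ ≤ #D ^ 4 := by
          rw [sum_const, smul_eq_mul, mul_one]
          refine (card_le_card (filter_subset _ _)).trans ?_
          rw [card_product, card_product]
          apply le_of_eq
          ring

/-- There is a dilate with a large sumset. -/
theorem exists_dilate (D : Finset (ZMod p)) (hD : 2 * p ≤ #D ^ 2) (hp3 : 3 < p) :
    ∃ ξ : ZMod p, ξ ≠ 0 ∧ p < 2 * #(D + D.image (ξ * ·)) := by
  by_contra hcon
  push Not at hcon
  set n := #D with hn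
  have h1 : ∀ ξ : ZMod p, ξ ≠ 0 → 2 * n ^ 4 ≤ p *
      #{x ∈ (D ×ˢ D) ×ˢ (D ×ˢ D) | x.1.1 + ξ * x.2.1 = x.1.2 + ξ * x.2.2} := by
    intro ξ hξ
    have e1 := le_card_add_mul_addEnergy D (D.image (ξ * ·))
    have e3 : #(D.image (ξ * ·)) = n := card_image_of_injective _ (mul_right_injective₀ hξ)
    have e4 := energy_dilate D ξ hξ
    have e5 := hcon ξ hξ
    rw [e3] at e1
    calc 2 * n ^ 4 = 2 * (#D ^ 2 * n ^ 2) := by rw [← hn]; ring
      _ ≤ 2 * (#(D + D.image (ξ * ·)) * E[D, D.image (ξ * ·)]) := Nat.mul_le_mul_left _ e1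
      _ = (2 * #(D + D.image (ξ * ·))) * E[D, D.image (ξ * ·)] := by ring
      _ ≤ p * _ := Nat.mul_le_mul e5 e4
  have h2 : (p - 1) * (2 * n ^ 4) ≤ p * (n ^ 2 * (p - 1) + n ^ 4) := by
    calc (p - 1) * (2 * n ^ 4) = ∑ ξ ∈ univ.erase (0 : ZMod p), 2 * n ^ 4 := by
          rw [sum_const, card_erase_of_mem (mem_univ _), card_univ, ZMod.card, smul_eq_mul]
      _ ≤ ∑ ξ ∈ univ.erase (0 : ZMod p), p *
          #{x ∈ (D ×ˢ D) ×ˢ (D ×ˢ D) | x.1.1 + ξ * x.2.1 = x.1.2 + ξ * x.2.2} :=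
          sum_le_sum fun ξ hξ => h1 ξ (ne_of_mem_erase hξ)
      _ ≤ p * (n ^ 2 * (p - 1) + n ^ 4) := by
          rw [← mul_sum]
          exact Nat.mul_le_mul_left _ (sum_energy D)
  obtain ⟨k, rfl⟩ : ∃ k, p = k + 4 := ⟨p - 4, by omega⟩
  have h3 : k + 4 - 1 = k + 3 := by omega
  rw [h3] at h2
  have hn0 : 0 < n ^ 2 := by omega
  -- (k+3) 2 n^4 ≤ (k+4)(n²(k+3) + n⁴)  =>  (k+2) n² ≤ (k+4)(k+3)
  have h4 : (k + 2) * n ^ 2 ≤ (k + 4) * (k + 3) := by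
    apply Nat.le_of_mul_le_mul_left _ hn0
    nlinarith
  nlinarith

/-- Signed sums of eight products of elements of a large set cover `F_p`. -/
theorem eight (D : Finset (ZMod p)) (hD : 2 * p ≤ #D ^ 2) (hp3 : 3 < p) :
    ∃ b₁ ∈ D, ∃ b₂ ∈ D, ∃ a₁ ∈ D, ∃ a₂ ∈ D, ∀ x : ZMod p, ∃ a ∈ D, ∃ b ∈ D, ∃ a' ∈ D, ∃ b' ∈ D,
      x = b₂ * a - b₁ * a + a₁ * b - a₂ * b + (b₂ * a' - b₁ * a' + a₁ * b' - a₂ * b') := by
  obtain ⟨ξ, hξ, hX⟩ := exists_dilate D hD hp3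
  -- a collision
  obtain ⟨u, hu, v, hv, huv, hcol⟩ : ∃ u ∈ D ×ˢ D, ∃ v ∈ D ×ˢ D, u ≠ v ∧
      u.1 + ξ * u.2 = v.1 + ξ * v.2 := by
    apply exists_ne_map_eq_of_card_lt_of_maps_to (t := univ)
    · rw [card_univ, ZMod.card, card_product, ← sq]
      have := (Fact.out : p.Prime).pos
      omega
    · intro x _
      exact mem_coe.mpr (mem_univ _)
  rw [mem_product] at hu hv
  have hne : u.2 ≠ v.2 := by
    intro h
    rw [h] at hcol
    exact huv (Prod.ext (add_right_cancel hcol) h)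
  refine ⟨v.2, hv.2, u.2, hu.2, v.1, hv.1, u.1, hu.1, ?_⟩
  set X := (D + D.image (ξ * ·)).image ((u.2 - v.2) * ·) with hXdef
  have hXc : p < 2 * #X := by
    rw [hXdef, card_image_of_injective _ (mul_right_injective₀ (sub_ne_zero.mpr hne))]
    exact hX
  intro x
  -- X meets x - X
  obtain ⟨y, hy⟩ : (X ∩ X.image (x - ·)).Nonempty := by
    rw [← card_pos]
    have h1 := card_union_add_card_inter X (X.image (x - ·))
    have h2 : #(X ∪ X.image (x - ·)) ≤ p := by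
      calc #(X ∪ X.image (x - ·)) ≤ #(univ : Finset (ZMod p)) := card_le_univ _
        _ = p := by rw [card_univ, ZMod.card]
    have h3 : #(X.image (x - ·)) = #X := card_image_of_injective _ (sub_right_injective)
    omega
  rw [mem_inter] at hy
  obtain ⟨hy1, hy2⟩ := hy
  obtain ⟨z, hz, hzy⟩ := mem_image.mp hy2
  have hrep : ∀ y ∈ X, ∃ a ∈ D, ∃ b ∈ D, y = u.2 * a - v.2 * a + v.1 * b - u.1 * b := by
    intro y hy
    rw [hXdef, mem_image] at hy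
    obtain ⟨w, hw, rfl⟩ := hy
    rw [mem_add] at hw
    obtain ⟨a, ha, c, hc, rfl⟩ := hw
    rw [mem_image] at hc
    obtain ⟨b, hb, rfl⟩ := hc
    refine ⟨a, ha, b, hb, ?_⟩
    have : ξ * (u.2 - v.2) = v.1 - u.1 := by linear_combination hcol
    linear_combination b * this
  obtain ⟨a, ha, b, hb, h1⟩ := hrep y hy1
  obtain ⟨a', ha', b', hb', h2⟩ := hrep z hz
  refine ⟨a, ha, b, hb, a', ha', b', hb', ?_⟩
  rw [← h1, ← h2, ← hzy]
  ring

end Pool.Agent.C24e09
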