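import Mathlib

/-!
# A homogeneous Balog–Szemerédi–Gowers lemma for the graph of a power map
-/

set_option autoImplicit false
open Finset
open scoped Pointwise

namespace Pool.Agent.C24e09

variable {p : ℕ} [Fact p.Prime]

/-- The number of `w ∈ W` with `u * w ∈ W`. -/
def pop (W : Finset (ZMod p)) (u : ZMod p) : ℕ := #{w ∈ W | u * w ∈ W}

theorem pop_le (W : Finset (ZMod p)) (u : ZMod p) : pop W u ≤ #W := card_filter_le _ _

theorem card_fiber (W : Finset (ZMod p)) (hW : 0 ∉ W) (u : ZMod p) :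
    #{x ∈ W ×ˢ W | x.2 * x.1⁻¹ = u} = pop W u := by
  unfold pop
  refine card_nbij' (fun x => x.1) (fun w => (w, u * w)) ?_ ?_ ?_ ?_
  · intro x hx
    simp only [coe_filter, Set.mem_ofPred_eq, mem_product] at hx ⊢
    obtain ⟨⟨h1, h2⟩, h3⟩ := hx
    have h0 : x.1 ≠ 0 := fun h => hW (h ▸ h1)
    refine ⟨h1, ?_⟩
    rw [← h3, mul_assoc, inv_mul_cancel₀ h0, mul_one]
    exact h2
  · intro w hw
    simp only [coe_filter, Set.mem_ofPred_eq, mem_product] at hw ⊢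
    have h0 : w ≠ 0 := fun h => hW (h ▸ hw.1)
    exact ⟨⟨hw.1, hw.2⟩, by rw [mul_assoc, mul_inv_cancel₀ h0, mul_one]⟩
  · intro x hx
    simp only [coe_filter, Set.mem_ofPred_eq, mem_product] at hx
    obtain ⟨⟨h1, h2⟩, h3⟩ := hx
    have h0 : x.1 ≠ 0 := fun h => hW (h ▸ h1)
    ext
    · rfl
    · simp only []
      rw [← h3, mul_assoc, inv_mul_cancel₀ h0, mul_one]
  · intro w _
    rfl

theorem sum_pop (W : Finset (ZMod p)) (hW : 0 ∉ W) (S : Finset (ZMod p)) :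
    ∑ u ∈ S, pop W u = #{x ∈ W ×ˢ W | x.2 * x.1⁻¹ ∈ S} := by
  rw [← sum_card_fiberwise_eq_card_filter]
  exact sum_congr rfl fun u _ => (card_fiber W hW u).symm

theorem sum_pop_univ (W : Finset (ZMod p)) (hW : 0 ∉ W) :
    ∑ u, pop W u = #W ^ 2 := by
  rw [sum_pop W hW]
  simp [sq]

/-- Popular ratios: a general counting lemma. If `A` has `a` elements, the number of `u` with
`pop A u ≥ θ` is at least `a - θ p / a`. -/
theorem card_popular (A : Finset (ZMod p)) (hA : 0 ∉ A) (N M : ℕ) :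
    N * #A ^ 2 ≤ N * (#{u : ZMod p | M ≤ N * pop A u} * #A) + p * M := by
  have h1 := sum_pop_univ A hA
  rw [← h1, mul_sum, ← sum_filter_add_sum_filter_not univ (fun u => M ≤ N * pop A u)]
  apply Nat.add_le_add
  · calc ∑ u ∈ ({u : ZMod p | M ≤ N * pop A u} : Finset (ZMod p)), N * pop A u
        ≤ ∑ u ∈ ({u : ZMod p | M ≤ N * pop A u} : Finset (ZMod p)), N * #A :=
          sum_le_sum fun u _ => Nat.mul_le_mul_left _ (pop_le A u)
      _ = N * (#{u : ZMod p | M ≤ N * pop A u} * #A) := by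
          rw [sum_const, smul_eq_mul]; ring
  · calc ∑ u ∈ ({u : ZMod p | ¬ M ≤ N * pop A u} : Finset (ZMod p)), N * pop A u
        ≤ ∑ u ∈ ({u : ZMod p | ¬ M ≤ N * pop A u} : Finset (ZMod p)), M :=
          sum_le_sum fun u hu => by
            rw [mem_filter] at hu
            omega
      _ ≤ p * M := by
          rw [sum_const, smul_eq_mul]
          apply Nat.mul_le_mul_right
          calc #({u : ZMod p | ¬ M ≤ N * pop A u} : Finset (ZMod p)) ≤ #(univ : Finset (ZMod p)) :=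
                card_le_card (filter_subset _ _)
            _ = p := by rw [card_univ, ZMod.card]

/-- Elements of `W` whose ratios to most elements of `W` are popular. -/
def Vs (W : Finset (ZMod p)) : Finset (ZMod p) :=
  {v ∈ W | 4 * p * #{w ∈ W | 8 * p ^ 2 * pop W (w * v⁻¹) < #W ^ 3} ≤ #W ^ 2}

/-- Popular ratios of `W`. -/
def Bs (W : Finset (ZMod p)) : Finset (ZMod p) :=
  {z | #W ^ 2 ≤ 2 * p * pop W z}

theorem card_Vs (W : Finset (ZMod p)) (hW : 0 ∉ W) (hb : 0 < #W) : #W ≤ 2 * #(Vs W) := by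
  have hp : 0 < p := (Fact.out : p.Prime).pos
  set bad : Finset (ZMod p) := {u | 8 * p ^ 2 * pop W u < #W ^ 3} with hbad
  -- total number of bad pairs
  have h1 : ∑ v ∈ W, #{w ∈ W | 8 * p ^ 2 * pop W (w * v⁻¹) < #W ^ 3} = ∑ u ∈ bad, pop W u := by
    rw [sum_pop W hW, card_filter, sum_product]
    refine sum_congr rfl fun v _ => ?_
    rw [card_filter]
    refine sum_congr rfl fun w _ => ?_
    simp only [hbad, mem_filter, mem_univ, true_and]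
  have h2 : 8 * p ^ 2 * ∑ u ∈ bad, pop W u ≤ p * #W ^ 3 := by
    rw [mul_sum]
    calc ∑ u ∈ bad, 8 * p ^ 2 * pop W u ≤ ∑ u ∈ bad, #W ^ 3 :=
          sum_le_sum fun u hu => by
            rw [hbad, mem_filter] at hu
            exact hu.2.le
      _ ≤ p * #W ^ 3 := by
          rw [sum_const, smul_eq_mul]
          apply Nat.mul_le_mul_right
          calc #(bad) ≤ #(univ : Finset (ZMod p)) := card_le_card (filter_subset _ _)
            _ = p := by rw [card_univ, ZMod.card]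
  have h3 : 8 * p * ∑ u ∈ bad, pop W u ≤ #W ^ 3 := by
    apply Nat.le_of_mul_le_mul_left _ hp
    calc p * (8 * p * ∑ u ∈ bad, pop W u) = 8 * p ^ 2 * ∑ u ∈ bad, pop W u := by ring
      _ ≤ p * #W ^ 3 := h2
  -- Markov
  have h4 : #(W \ Vs W) * #W ^ 2 ≤ 4 * p * ∑ u ∈ bad, pop W u := by
    rw [← h1, mul_sum]
    calc #(W \ Vs W) * #W ^ 2 = ∑ v ∈ W \ Vs W, #W ^ 2 := by rw [sum_const, smul_eq_mul]
      _ ≤ ∑ v ∈ W \ Vs W, 4 * p * #{w ∈ W | 8 * p ^ 2 * pop W (w * v⁻¹) < #W ^ 3} :=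
          sum_le_sum fun v hv => by
            rw [mem_sdiff, Vs, mem_filter, not_and] at hv
            have := hv.2 hv.1
            omega
      _ ≤ ∑ v ∈ W, 4 * p * #{w ∈ W | 8 * p ^ 2 * pop W (w * v⁻¹) < #W ^ 3} :=
          sum_le_sum_of_subset sdiff_subset
  have h5 : 2 * #(W \ Vs W) ≤ #W := by
    apply Nat.le_of_mul_le_mul_right _ (pow_pos hb 2)
    calc 2 * #(W \ Vs W) * #W ^ 2 = 2 * (#(W \ Vs W) * #W ^ 2) := by ring
      _ ≤ 2 * (4 * p * ∑ u ∈ bad, pop W u) := Nat.mul_le_mul_left _ h4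
      _ = 8 * p * ∑ u ∈ bad, pop W u := by ring
      _ ≤ #W ^ 3 := h3
      _ = #W * #W ^ 2 := by ring
  have h6 : #(W \ Vs W) + #(Vs W) = #W := by
    rw [card_sdiff_add_card_eq_card]
    exact filter_subset _ _
  omega

theorem card_Bs (W : Finset (ZMod p)) (hW : 0 ∉ W) (hb : 0 < #W) : #W ≤ 2 * #(Bs W) := by
  have hp : 0 < p := (Fact.out : p.Prime).pos
  have h1 := card_popular W hW (2 * p) (#W ^ 2)
  have h2 : 2 * p * (#(Bs W) * #W) + p * #W ^ 2 ≥ 2 * p * #W ^ 2 := h1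
  have h3 : (p * #W) * #W ≤ (p * #W) * (2 * #(Bs W)) := by nlinarith
  exact Nat.le_of_mul_le_mul_left h3 (Nat.mul_pos hp hb)

theorem zero_notMem_Bs (W : Finset (ZMod p)) (hW : 0 ∉ W) (hb : 0 < #W) : 0 ∉ Bs W := by
  intro h
  rw [Bs, mem_filter] at h
  have h1 : pop W 0 = 0 := by
    unfold pop
    rw [card_eq_zero, filter_eq_empty_iff]
    intro w _
    rwa [zero_mul]
  rw [h1, mul_zero] at h
  have := pow_pos hb 2
  omega

theorem count (W : Finset (ZMod p)) (v z : ZMod p) (hv : v ∈ Vs W)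
    (hz : z ∈ Bs W) :
    #W ^ 5 ≤ 32 * p ^ 3 * #{x ∈ W ×ˢ W | z * x.1 ∈ W ∧ (x.1 * v⁻¹) * x.2 ∈ W} := by
  rw [Vs, mem_filter] at hv
  rw [Bs, mem_filter] at hz
  set N := #{x ∈ W ×ˢ W | z * x.1 ∈ W ∧ (x.1 * v⁻¹) * x.2 ∈ W} with hN
  have h1 : N = ∑ w ∈ {w ∈ W | z * w ∈ W}, pop W (w * v⁻¹) := by
    rw [hN, card_filter, sum_product, sum_filter]
    refine sum_congr rfl fun w _ => ?_
    by_cases hw : z * w ∈ W
    · rw [if_pos hw, pop, card_filter]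
      refine sum_congr rfl fun w' _ => ?_
      simp [hw]
    · rw [if_neg hw]
      exact sum_eq_zero fun w' _ => by simp [hw]
  set good : Finset (ZMod p) := {w ∈ {w ∈ W | z * w ∈ W} | ¬ 8 * p ^ 2 * pop W (w * v⁻¹) < #W ^ 3}
    with hgood
  have h2 : #(good) * #W ^ 3 ≤ 8 * p ^ 2 * N := by
    rw [h1, mul_sum]
    calc #(good) * #W ^ 3 = ∑ w ∈ good, #W ^ 3 := by rw [sum_const, smul_eq_mul]
      _ ≤ ∑ w ∈ good, 8 * p ^ 2 * pop W (w * v⁻¹) := sum_le_sum fun w hw => by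
          rw [hgood, mem_filter] at hw
          omega
      _ ≤ ∑ w ∈ {w ∈ W | z * w ∈ W}, 8 * p ^ 2 * pop W (w * v⁻¹) :=
          sum_le_sum_of_subset (filter_subset _ _)
  have h3 : pop W z ≤ #(good) + #{w ∈ W | 8 * p ^ 2 * pop W (w * v⁻¹) < #W ^ 3} := by
    have e1 : pop W z = #{w ∈ {w ∈ W | z * w ∈ W} | 8 * p ^ 2 * pop W (w * v⁻¹) < #W ^ 3} + #(good) := by
      rw [hgood, card_filter_add_card_filter_not]
      rfl
    have e2 : #{w ∈ {w ∈ W | z * w ∈ W} | 8 * p ^ 2 * pop W (w * v⁻¹) < #W ^ 3} ≤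
        #{w ∈ W | 8 * p ^ 2 * pop W (w * v⁻¹) < #W ^ 3} :=
      card_le_card (filter_subset_filter _ (filter_subset _ _))
    omega
  have h4 : #W ^ 2 ≤ 4 * p * #(good) := by
    have h5 := Nat.mul_le_mul_left (4 * p) h3
    have h6 := hv.2
    have h7 := hz.2
    nlinarith
  calc #W ^ 5 = #W ^ 2 * #W ^ 3 := by ring
    _ ≤ 4 * p * #(good) * #W ^ 3 := Nat.mul_le_mul_right _ h4
    _ = 4 * p * (#(good) * #W ^ 3) := by ring
    _ ≤ 4 * p * (8 * p ^ 2 * N) := Nat.mul_le_mul_left _ h2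
    _ = 32 * p ^ 3 * N := by ring

/-- Left graph points. -/
def Y1 (W : Finset (ZMod p)) (s : ℕ) (C₁ : ZMod p) : Finset (ZMod p × ZMod p) :=
  (Vs W).image fun v => (v⁻¹, C₁ * v⁻¹ ^ s)

/-- Right graph points. -/
def Y2 (W : Finset (ZMod p)) (s : ℕ) (C₂ : ZMod p) : Finset (ZMod p × ZMod p) :=
  (Bs W).image fun z => (z, C₂ * z ^ s)

/-- The graph of `x ↦ x ^ s` over the inverses of `Vs W`. -/
def Yg (W : Finset (ZMod p)) (s : ℕ) : Finset (ZMod p × ZMod p) :=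
  (Vs W).image fun v => (v⁻¹, v⁻¹ ^ s)

theorem card_Yg (W : Finset (ZMod p)) (s : ℕ) : #(Yg W s) = #(Vs W) := by
  unfold Yg
  apply card_image_of_injective
  intro x y h
  exact inv_injective (congrArg Prod.fst h)

theorem card_Y2 (W : Finset (ZMod p)) (s : ℕ) (C₂ : ZMod p) : #(Y2 W s C₂) = #(Bs W) := by
  unfold Y2
  apply card_image_of_injective
  intro x y h
  exact congrArg Prod.fst h

theorem mul_rel {s : ℕ} {C₁ C₂ : ZMod p} {W : Finset (ZMod p)}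
    (hrel : ∀ w ∈ W, (1 + w) ^ s = C₁ + C₂ * w ^ s) {x y : ZMod p} (hx : x ≠ 0)
    (h : y * x⁻¹ ∈ W) : (x + y) ^ s = C₁ * x ^ s + C₂ * y ^ s := by
  have h1 := hrel _ h
  have h2 : x + y = x * (1 + y * x⁻¹) := by
    field_simp
  rw [h2, mul_pow, h1, mul_pow, inv_pow]
  have : x ^ s ≠ 0 := pow_ne_zero _ hx
  field_simp

theorem sumset_bound (W : Finset (ZMod p)) (hW : 0 ∉ W) (s : ℕ) (C₁ C₂ : ZMod p)
    (hrel : ∀ w ∈ W, (1 + w) ^ s = C₁ + C₂ * w ^ s) :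
    #(Y1 W s C₁ + Y2 W s C₂) * #W ^ 5 ≤ 32 * p ^ 6 := by
  set φ : ZMod p × ZMod p × ZMod p → ZMod p × ZMod p :=
    fun u => (u.1 - u.2.1 + u.2.2, u.1 ^ s - u.2.1 ^ s + u.2.2 ^ s) with hφ
  have key : ∀ σ ∈ Y1 W s C₁ + Y2 W s C₂, #W ^ 5 ≤ 32 * p ^ 3 * #{u | φ u = σ} := by
    intro σ hσ
    rw [mem_add] at hσ
    obtain ⟨y₁, h1, y₂, h2, rfl⟩ := hσ
    rw [Y1, mem_image] at h1
    rw [Y2, mem_image] at h2
    obtain ⟨v, hv, rfl⟩ := h1
    obtain ⟨z, hz, rfl⟩ := h2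
    have hvW : v ∈ W := by
      rw [Vs, mem_filter] at hv
      exact hv.1
    have hv0 : v ≠ 0 := fun h => hW (h ▸ hvW)
    refine (count W v z hv hz).trans (Nat.mul_le_mul_left _ ?_)
    apply card_le_card_of_injOn
      (fun x => (v⁻¹ + v⁻¹ * x.2, x.1⁻¹ + v⁻¹ * x.2, x.1⁻¹ + z))
    · rintro ⟨w', w⟩ hx
      simp only [coe_filter, Set.mem_ofPred_eq, mem_product, mem_univ, true_and] at hx ⊢
      obtain ⟨⟨h1, h2⟩, h3, h4⟩ := hx
      have hw' : w' ≠ 0 := fun h => hW (h ▸ h1)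
      have f1 : v⁻¹ * w * v⁻¹⁻¹ ∈ W := by
        rw [inv_inv, mul_comm, ← mul_assoc, mul_inv_cancel₀ hv0, one_mul]
        exact h2
      have f2 : v⁻¹ * w * w'⁻¹⁻¹ ∈ W := by
        have : v⁻¹ * w * w'⁻¹⁻¹ = w' * v⁻¹ * w := by
          rw [inv_inv]
          ring
        rw [this]
        exact h4
      have f3 : z * w'⁻¹⁻¹ ∈ W := by
        rw [inv_inv]
        exact h3
      have e1 : (v⁻¹ + v⁻¹ * w) ^ s = C₁ * v⁻¹ ^ s + C₂ * (v⁻¹ * w) ^ s :=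
        mul_rel hrel (inv_ne_zero hv0) f1
      have e2 : (w'⁻¹ + v⁻¹ * w) ^ s = C₁ * w'⁻¹ ^ s + C₂ * (v⁻¹ * w) ^ s :=
        mul_rel hrel (inv_ne_zero hw') f2
      have e3 : (w'⁻¹ + z) ^ s = C₁ * w'⁻¹ ^ s + C₂ * z ^ s :=
        mul_rel hrel (inv_ne_zero hw') f3
      simp only [hφ, Prod.mk_add_mk, Prod.mk.injEq]
      constructor
      · ring
      · rw [e1, e2, e3]
        ring
    · rintro ⟨w', w⟩ _ ⟨w₁', w₁⟩ _ h
      simp only [Prod.mk.injEq] at h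
      obtain ⟨h1, _, h3⟩ := h
      have e1 : w = w₁ := mul_left_cancel₀ (inv_ne_zero hv0) (add_left_cancel h1)
      have e2 : w' = w₁' := inv_injective (add_right_cancel h3)
      rw [e1, e2]
  calc #(Y1 W s C₁ + Y2 W s C₂) * #W ^ 5 = ∑ σ ∈ Y1 W s C₁ + Y2 W s C₂, #W ^ 5 := by
        rw [sum_const, smul_eq_mul]
    _ ≤ ∑ σ ∈ Y1 W s C₁ + Y2 W s C₂, 32 * p ^ 3 * #{u | φ u = σ} := sum_le_sum key
    _ = 32 * p ^ 3 * #{u | φ u ∈ Y1 W s C₁ + Y2 W s C₂} := by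
        rw [← mul_sum, sum_card_fiberwise_eq_card_filter]
    _ ≤ 32 * p ^ 3 * #(univ : Finset (ZMod p × ZMod p × ZMod p)) :=
        Nat.mul_le_mul_left _ (card_le_card (filter_subset _ _))
    _ = 32 * p ^ 6 := by
        rw [card_univ, Fintype.card_prod, Fintype.card_prod, ZMod.card]
        ring

theorem card_Y1_sub (W : Finset (ZMod p)) (s : ℕ) (C₁ : ZMod p) (hC : C₁ ≠ 0) :
    #(Y1 W s C₁ - Y1 W s C₁) = #(Yg W s - Yg W s) := by
  have h1 : Y1 W s C₁ - Y1 W s C₁ = (Yg W s - Yg W s).image fun y => (y.1, C₁ * y.2) := by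
    ext y
    simp only [mem_sub, mem_image, Y1, Yg]
    constructor
    · rintro ⟨_, ⟨v, hv, rfl⟩, _, ⟨w, hw, rfl⟩, rfl⟩
      refine ⟨_, ⟨_, ⟨v, hv, rfl⟩, _, ⟨w, hw, rfl⟩, rfl⟩, ?_⟩
      simp only [Prod.mk_sub_mk, Prod.mk.injEq, true_and]
      ring
    · rintro ⟨_, ⟨_, ⟨v, hv, rfl⟩, _, ⟨w, hw, rfl⟩, rfl⟩, rfl⟩
      refine ⟨_, ⟨v, hv, rfl⟩, _, ⟨w, hw, rfl⟩, ?_⟩
      simp only [Prod.mk_sub_mk, Prod.mk.injEq, true_and]
      ring
  rw [h1]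
  apply card_image_of_injective
  rintro ⟨x1, x2⟩ ⟨y1, y2⟩ h
  simp only [Prod.mk.injEq] at h
  rw [h.1, mul_left_cancel₀ hC h.2]

/-- The graph of `x ↦ x ^ s` over a large set has small doubling. -/
theorem doubling (W : Finset (ZMod p)) (hW : 0 ∉ W) (hb : 0 < #W) (s : ℕ) (C₁ C₂ : ZMod p)
    (hC : C₁ ≠ 0) (hrel : ∀ w ∈ W, (1 + w) ^ s = C₁ + C₂ * w ^ s) :
    #(Yg W s - Yg W s) * #W ^ 11 ≤ 2 ^ 11 * p ^ 12 := by
  have h1 := sumset_bound W hW s C₁ C₂ hrel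
  have h2 := ruzsa_triangle_inequality_sub_add_add (Y1 W s C₁) (Y2 W s C₂) (Y1 W s C₁)
  rw [card_Y1_sub W s C₁ hC, card_Y2] at h2
  have h3 := card_Bs W hW hb
  calc #(Yg W s - Yg W s) * #W ^ 11 = #(Yg W s - Yg W s) * #W * #W ^ 10 := by ring
    _ ≤ #(Yg W s - Yg W s) * (2 * #(Bs W)) * #W ^ 10 :=
        Nat.mul_le_mul_right _ (Nat.mul_le_mul_left _ h3)
    _ = 2 * (#(Yg W s - Yg W s) * #(Bs W)) * #W ^ 10 := by ring
    _ ≤ 2 * (#(Y1 W s C₁ + Y2 W s C₂) * #(Y1 W s C₁ + Y2 W s C₂)) * #W ^ 10 :=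
        Nat.mul_le_mul_right _ (Nat.mul_le_mul_left _ h2)
    _ = 2 * ((#(Y1 W s C₁ + Y2 W s C₂) * #W ^ 5) * (#(Y1 W s C₁ + Y2 W s C₂) * #W ^ 5)) := by ring
    _ ≤ 2 * ((32 * p ^ 6) * (32 * p ^ 6)) := Nat.mul_le_mul_left _ (Nat.mul_le_mul h1 h1)
    _ = 2 ^ 11 * p ^ 12 := by ring

end Pool.Agent.C24e09
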