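import Mathlib

/-!
# Power maps on `ZMod p`
-/

set_option autoImplicit false
open Finset
open scoped Pointwise

namespace Pool.Agent.C24e09

variable {p : ℕ} [Fact p.Prime]

theorem pow_pm1 {x : ZMod p} (hx : x ≠ 0) : x ^ (p - 1) = 1 := ZMod.pow_card_sub_one_eq_one hx

theorem card_nrf (n : ℕ) (a : ZMod p) : #(Polynomial.nthRootsFinset n a) ≤ n := by
  unfold Polynomial.nthRootsFinset
  exact (@Multiset.toFinset_card_le _ (Classical.decEq _) _).trans (Polynomial.card_nthRoots n a)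

theorem pow_gcd_one {x : ZMod p} {a b : ℕ} (ha : x ^ a = 1) (hb : x ^ b = 1) :
    x ^ (Nat.gcd a b) = 1 := by
  rw [← orderOf_dvd_iff_pow_eq_one] at *
  exact Nat.dvd_gcd ha hb

theorem pow_inj_of_coprime {s : ℕ} (hs : s.Coprime (p - 1)) (hp : 3 ≤ p) :
    ∀ x y : ZMod p, x ^ s = y ^ s → x = y := by
  have hs0 : s ≠ 0 := by
    rintro rfl
    rw [Nat.coprime_zero_left] at hs
    omega
  intro x y h
  rcases eq_or_ne y 0 with rfl | hy
  · rw [zero_pow hs0] at h
    exact pow_eq_zero_iff hs0 |>.mp h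
  · have h1 : (x / y) ^ s = 1 := by
      rw [div_pow, h, div_self (pow_ne_zero _ hy)]
    have hx : x / y ≠ 0 := by
      intro h0
      rw [h0, zero_pow hs0] at h1
      exact zero_ne_one h1
    have h2 := pow_gcd_one h1 (pow_pm1 hx)
    rw [hs, pow_one] at h2
    exact (div_eq_one_iff_eq hy).mp h2

/-- A nonempty fibre of `x ↦ x ^ e` on nonzero elements has at most `gcd e (p - 1)` elements. -/
theorem card_fibre (e : ℕ) (c : ZMod p) :
    #{x : ZMod p | x ≠ 0 ∧ x ^ e = c} ≤ Nat.gcd e (p - 1) := by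
  have hp := (Fact.out : p.Prime).two_le
  have hd : 0 < Nat.gcd e (p - 1) := Nat.gcd_pos_of_pos_right _ (by omega)
  rcases Finset.eq_empty_or_nonempty {x : ZMod p | x ≠ 0 ∧ x ^ e = c} with h | ⟨x₀, hx₀⟩
  · rw [h, card_empty]
    exact Nat.zero_le _
  · rw [mem_filter] at hx₀
    obtain ⟨-, h0, h1⟩ := hx₀
    have h2 : #{x : ZMod p | x ≠ 0 ∧ x ^ e = c} ≤
        #(Polynomial.nthRootsFinset (Nat.gcd e (p - 1)) (1 : ZMod p)) := by
      apply card_le_card_of_injOn (· / x₀)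
      · intro x hx
        rw [mem_coe, mem_filter] at hx
        obtain ⟨-, hx0, hx1⟩ := hx
        rw [mem_coe, Polynomial.mem_nthRootsFinset hd]
        apply pow_gcd_one
        · rw [div_pow, hx1, h1, div_self]
          rw [← h1]
          exact pow_ne_zero _ h0
        · exact pow_pm1 (div_ne_zero hx0 h0)
      · intro x _ y _ h
        exact (div_left_inj' h0).mp h
    exact h2.trans (card_nrf _ _)

/-- The map `x ↦ x ^ e` takes at most `(p - 1) / gcd e (p - 1)` values on nonzero elements. -/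
theorem card_values (e : ℕ) :
    #(({x : ZMod p | x ≠ 0} : Finset (ZMod p)).image (· ^ e)) ≤ (p - 1) / Nat.gcd e (p - 1) := by
  have hp := (Fact.out : p.Prime).two_le
  have hd : 0 < Nat.gcd e (p - 1) := Nat.gcd_pos_of_pos_right _ (by omega)
  have hm : 0 < (p - 1) / Nat.gcd e (p - 1) :=
    Nat.div_pos (Nat.le_of_dvd (by omega) (Nat.gcd_dvd_right _ _)) hd
  have h1 : ({x : ZMod p | x ≠ 0} : Finset (ZMod p)).image (· ^ e) ⊆
      Polynomial.nthRootsFinset ((p - 1) / Nat.gcd e (p - 1)) (1 : ZMod p) := by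
    intro y hy
    rw [mem_image] at hy
    obtain ⟨x, hx, rfl⟩ := hy
    rw [mem_filter] at hx
    rw [Polynomial.mem_nthRootsFinset hm, ← pow_mul]
    obtain ⟨k, hk⟩ := Nat.gcd_dvd_left e (p - 1)
    have : e * ((p - 1) / Nat.gcd e (p - 1)) = (p - 1) * k := by
      calc e * ((p - 1) / Nat.gcd e (p - 1))
          = (Nat.gcd e (p - 1) * k) * ((p - 1) / Nat.gcd e (p - 1)) := by rw [← hk]
        _ = (Nat.gcd e (p - 1) * ((p - 1) / Nat.gcd e (p - 1))) * k := by ring
        _ = _ := by rw [Nat.mul_div_cancel' (Nat.gcd_dvd_right _ _)]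
    rw [this, pow_mul, pow_pm1 hx.2, one_pow]
  exact (card_le_card h1).trans (card_nrf _ _)

/-- If `r` is coprime to `p - 1` and `r ≢ 1 mod p - 1`, then `gcd (r - 1) (p - 1) ≤ (p - 1) / t`. -/
theorem t_le {r t : ℕ} (hp : 5 ≤ p) (hr : r.Coprime (p - 1)) (hr1 : ¬ (p - 1) ∣ (r - 1))
    (ht : ∀ q : ℕ, q.Prime → 2 * q ∣ p - 1 → t ≤ q) : t ≤ (p - 1) / Nat.gcd (r - 1) (p - 1) := by
  have h2 : 2 ∣ p - 1 := by
    rcases (Fact.out : p.Prime).eq_two_or_odd with h | h
    · omega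
    · omega
  have hrodd : 2 ∣ r - 1 := by
    have h3 : r % 2 = 1 := by
      by_contra h
      have h4 : 2 ∣ r := by omega
      have := Nat.dvd_gcd h4 h2
      rw [hr] at this
      omega
    omega
  set d := Nat.gcd (r - 1) (p - 1) with hd
  have hdd : d ∣ p - 1 := Nat.gcd_dvd_right _ _
  have h2d : 2 ∣ d := Nat.dvd_gcd hrodd h2
  have hd1 : (p - 1) / d ≠ 1 := by
    intro h
    have h3 : p - 1 = d := by
      calc p - 1 = d * ((p - 1) / d) := (Nat.mul_div_cancel' hdd).symm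
        _ = d := by rw [h, mul_one]
    exact hr1 (h3 ▸ (Nat.gcd_dvd_left (r - 1) (p - 1)))
  have hq := Nat.minFac_prime hd1
  have hq2 : 2 * Nat.minFac ((p - 1) / d) ∣ p - 1 := by
    calc 2 * Nat.minFac ((p - 1) / d) ∣ d * ((p - 1) / d) :=
          Nat.mul_dvd_mul h2d (Nat.minFac_dvd _)
      _ = p - 1 := Nat.mul_div_cancel' hdd
  have hpos : 0 < (p - 1) / d := by
    apply Nat.div_pos (Nat.le_of_dvd (by omega) hdd)
    exact Nat.gcd_pos_of_pos_right _ (by omega)
  exact (ht _ hq hq2).trans (Nat.minFac_le hpos)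

/-- The number of solutions of `y ^ n = 1` for `n ∣ p - 1`. -/
theorem exists_H (n : ℕ) (hn : n ∣ p - 1) :
    ∃ H : Finset (ZMod p), #H = n ∧ ∀ y ∈ H, y ≠ 0 ∧ y ^ n = 1 := by
  have hp := (Fact.out : p.Prime).two_le
  have hn0 : 0 < n := Nat.pos_of_dvd_of_pos hn (by omega)
  obtain ⟨g, hg⟩ := IsCyclic.exists_generator (α := (ZMod p)ˣ)
  have h1 : orderOf g = p - 1 := by
    rw [orderOf_eq_card_of_forall_mem_zpowers hg, Nat.card_eq_fintype_card, ZMod.card_units]
  have h2 : IsPrimitiveRoot g (p - 1) := h1 ▸ IsPrimitiveRoot.orderOf g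
  have h3 : IsPrimitiveRoot (g : ZMod p) (p - 1) := IsPrimitiveRoot.coe_units_iff.mpr h2
  obtain ⟨m, hm⟩ := hn
  have h4 : IsPrimitiveRoot ((g : ZMod p) ^ m) n :=
    h3.pow (by omega) (by rw [hm, mul_comm])
  refine ⟨Polynomial.nthRootsFinset n (1 : ZMod p), h4.card_nthRootsFinset, fun y hy => ?_⟩
  rw [Polynomial.mem_nthRootsFinset hn0] at hy
  refine ⟨?_, hy⟩
  rintro rfl
  rw [zero_pow hn0.ne'] at hy
  exact zero_ne_one hy

end Pool.Agent.C24e09
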