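import Mathlib
import Pool.Agent.Lib.MP_c24e09_co.BSG
import Pool.Agent.Lib.MP_c24e09_co.AB

/-!
# Multipliers of a graph with small doubling
-/

set_option autoImplicit false
open Finset
open scoped Pointwise

namespace Pool.Agent.C24e09

variable {p : ℕ} [Fact p.Prime]

/-- `T • Y` is covered by `n` translates of `m Y - m Y`. -/
def Cov (Y : Finset (ZMod p × ZMod p)) (T : ZMod p × ZMod p) (n : ℝ) (m : ℕ) : Prop :=
  ∃ Z : Finset (ZMod p × ZMod p), (#Z : ℝ) ≤ n ∧ ∀ y ∈ Y, T * y ∈ Z + (m • Y - m • Y)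

theorem nsmul_sub_nsmul_add (Y : Finset (ZMod p × ZMod p)) (m k : ℕ) :
    (m • Y - m • Y) + (k • Y - k • Y) = (m + k) • Y - (m + k) • Y := by
  rw [add_nsmul, add_sub_add_comm]

theorem nsmul_sub_nsmul_sub (Y : Finset (ZMod p × ZMod p)) (m k : ℕ) :
    (m • Y - m • Y) - (k • Y - k • Y) = (m + k) • Y - (m + k) • Y := by
  rw [← nsmul_sub_nsmul_add, sub_eq_add_neg (m • Y - m • Y) (k • Y - k • Y), neg_sub]

theorem Cov.add {Y : Finset (ZMod p × ZMod p)} {T T' : ZMod p × ZMod p} {n n' : ℝ} {m m' : ℕ}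
    (h : Cov Y T n m) (h' : Cov Y T' n' m') : Cov Y (T + T') (n * n') (m + m') := by
  obtain ⟨Z, hZ, h⟩ := h
  obtain ⟨Z', hZ', h'⟩ := h'
  refine ⟨Z + Z', ?_, ?_⟩
  · have h1 : (#(Z + Z') : ℝ) ≤ #Z * #Z' := by exact_mod_cast card_add_le
    refine h1.trans (mul_le_mul hZ hZ' (by positivity) ((Nat.cast_nonneg _).trans hZ))
  · intro y hy
    rw [add_mul, ← nsmul_sub_nsmul_add, add_add_add_comm]
    exact add_mem_add (h y hy) (h' y hy)

theorem Cov.sub {Y : Finset (ZMod p × ZMod p)} {T T' : ZMod p × ZMod p} {n n' : ℝ} {m m' : ℕ}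
    (h : Cov Y T n m) (h' : Cov Y T' n' m') : Cov Y (T - T') (n * n') (m + m') := by
  obtain ⟨Z, hZ, h⟩ := h
  obtain ⟨Z', hZ', h'⟩ := h'
  refine ⟨Z - Z', ?_, ?_⟩
  · have h1 : (#(Z - Z') : ℝ) ≤ #Z * #Z' := by exact_mod_cast card_sub_le
    refine h1.trans (mul_le_mul hZ hZ' (by positivity) ((Nat.cast_nonneg _).trans hZ))
  · intro y hy
    rw [sub_mul, ← nsmul_sub_nsmul_sub, ← add_sub_add_comm]
    exact sub_mem_sub (h y hy) (h' y hy)

theorem Cov.mul {Y : Finset (ZMod p × ZMod p)} {T T' : ZMod p × ZMod p} {n n' : ℝ}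
    (h : Cov Y T n 1) (h' : Cov Y T' n' 1) : Cov Y (T * T') (n' * (n * n)) 2 := by
  obtain ⟨Z, hZ, h⟩ := h
  obtain ⟨Z', hZ', h'⟩ := h'
  rw [one_nsmul] at h h'
  refine ⟨Z'.image (T * ·) + (Z - Z), ?_, ?_⟩
  · have h1 : (#(Z'.image (T * ·) + (Z - Z)) : ℝ) ≤ #Z' * (#Z * #Z) := by
      have e1 : #(Z'.image (T * ·) + (Z - Z)) ≤ #Z' * (#Z * #Z) :=
        card_add_le.trans (Nat.mul_le_mul card_image_le card_sub_le)
      exact_mod_cast e1
    have hn : 0 ≤ n := (Nat.cast_nonneg _).trans hZ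
    refine h1.trans (mul_le_mul hZ' (mul_le_mul hZ hZ (by positivity) hn) (by positivity)
      ((Nat.cast_nonneg _).trans hZ'))
  · intro y hy
    have h2 := h' y hy
    rw [mem_add] at h2
    obtain ⟨z', hz', u, hu, h3⟩ := h2
    rw [mem_sub] at hu
    obtain ⟨y₁, hy₁, y₂, hy₂, rfl⟩ := hu
    obtain ⟨z₁, hz₁, u₁, hu₁, h4⟩ := mem_add.mp (h y₁ hy₁)
    obtain ⟨z₂, hz₂, u₂, hu₂, h5⟩ := mem_add.mp (h y₂ hy₂)
    have h6 : T * T' * y = (T * z' + (z₁ - z₂)) + (u₁ - u₂) := by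
      rw [mul_assoc, ← h3, mul_add, mul_sub, ← h4, ← h5]
      ring
    rw [h6]
    refine add_mem_add (add_mem_add (mem_image_of_mem _ hz') (sub_mem_sub hz₁ hz₂)) ?_
    have h7 := nsmul_sub_nsmul_sub Y 1 1
    rw [one_nsmul] at h7
    rw [show (2 : ℕ) = 1 + 1 from rfl, ← h7]
    exact sub_mem_sub hu₁ hu₂

theorem Cov.one {Y : Finset (ZMod p × ZMod p)} (hY : Y.Nonempty) : Cov Y 1 1 1 := by
  obtain ⟨y₀, hy₀⟩ := hY
  refine ⟨{y₀}, by simp, fun y hy => ?_⟩
  rw [one_nsmul, one_mul]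
  rw [show y = y₀ + (y - y₀) by ring]
  exact add_mem_add (mem_singleton_self _) (sub_mem_sub hy hy₀)

theorem Cov.mono {Y : Finset (ZMod p × ZMod p)} {T : ZMod p × ZMod p} {n n' : ℝ} {m : ℕ}
    (h : Cov Y T n m) (hn : n ≤ n') : Cov Y T n' m := by
  obtain ⟨Z, hZ, h⟩ := h
  exact ⟨Z, hZ.trans hn, h⟩

/-- The graph of `x ↦ x ^ s` over `A`. -/
def gr (s : ℕ) (A : Finset (ZMod p)) : Finset (ZMod p × ZMod p) := A.image fun x => (x, x ^ s)

theorem card_gr (s : ℕ) (A : Finset (ZMod p)) : #(gr s A) = #A := by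
  unfold gr
  apply card_image_of_injective
  intro x y h
  exact congrArg Prod.fst h

/-- A multiplier with first coordinate `0` has second coordinate `0`. -/
theorem Cov.zero_fst {s : ℕ} (A : Finset (ZMod p)) (hA : A.Nonempty)
    (hinj : ∀ x y : ZMod p, x ^ s = y ^ s → x = y) {d : ZMod p} (hd : d ≠ 0) {n : ℝ} {m : ℕ}
    (h : Cov (gr s A) (0, d) n m) :
    (#A : ℝ) ≤ n * (#(gr s A - gr s A) / #A : ℝ) ^ (4 * m + 1) := by
  classical
  obtain ⟨Z, hZ, h⟩ := h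
  have h1 : ∀ x ∈ A, ∃ z ∈ Z, ((0 : ZMod p), d * x ^ s) - z ∈ m • gr s A - m • gr s A := by
    intro x hx
    have h2 := h (x, x ^ s) (mem_image_of_mem _ hx)
    rw [mem_add] at h2
    obtain ⟨z, hz, u, hu, h3⟩ := h2
    refine ⟨z, hz, ?_⟩
    have h4 : ((0 : ZMod p), d * x ^ s) - z = u := by
      rw [sub_eq_iff_eq_add, add_comm u, h3, Prod.mk_mul_mk, zero_mul]
    rw [h4]
    exact hu
  choose! f hfZ hf using h1
  have hZne : Z.Nonempty := by
    obtain ⟨x, hx⟩ := hA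
    exact ⟨f x, hfZ x hx⟩
  obtain ⟨z, hz, hmax⟩ := exists_max_image Z (fun z => #{x ∈ A | f x = z}) hZne
  set V := {x ∈ A | f x = z} with hV
  have h2 : #A ≤ #Z * #V := by
    rw [card_eq_sum_card_fiberwise (f := f) (s := A) (t := Z) hfZ]
    calc ∑ b ∈ Z, #{a ∈ A | f a = b} ≤ ∑ b ∈ Z, #V := sum_le_sum hmax
      _ = #Z * #V := by rw [sum_const, smul_eq_mul]
  have hVne : V.Nonempty := by
    rw [← card_pos]
    have := card_pos.mpr hA
    by_contra hcon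
    have h0 : #V = 0 := by omega
    rw [h0, mul_zero] at h2
    omega
  obtain ⟨x₀, hx₀⟩ := hVne
  -- `V + Y` inside `(2 m + 1) Y - 2 m Y`
  have h3 : #V * #A ≤ #((2 * m + 1) • gr s A - (2 * m) • gr s A) := by
    rw [← card_product]
    apply card_le_card_of_injOn
      (fun x => ((0 : ZMod p), d * x.1 ^ s - d * x₀ ^ s) + (x.2, x.2 ^ s))
    · rintro ⟨x, y⟩ hxy
      simp only [coe_product, Set.mem_prod, mem_coe] at hxy ⊢
      have e1 : ((0 : ZMod p), d * x ^ s - d * x₀ ^ s) ∈ (2 * m) • gr s A - (2 * m) • gr s A := by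
        rw [two_mul, ← nsmul_sub_nsmul_sub]
        have e2 := hf x (mem_filter.mp hxy.1).1
        have e3 := hf x₀ (mem_filter.mp hx₀).1
        rw [(mem_filter.mp hxy.1).2] at e2
        rw [(mem_filter.mp hx₀).2] at e3
        have e4 : ((0 : ZMod p), d * x ^ s - d * x₀ ^ s) =
            (((0 : ZMod p), d * x ^ s) - z) - (((0 : ZMod p), d * x₀ ^ s) - z) := by
          rw [sub_sub_sub_cancel_right, Prod.mk_sub_mk, sub_zero]
        rw [e4]
        exact sub_mem_sub e2 e3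
      have e5 : (y, y ^ s) ∈ gr s A := mem_image_of_mem _ hxy.2
      rw [succ_nsmul, add_sub_right_comm]
      exact add_mem_add e1 e5
    · rintro ⟨x, y⟩ _ ⟨x', y'⟩ _ heq
      simp only [Prod.mk_add_mk, zero_add, Prod.mk.injEq] at heq
      obtain ⟨e1, e2⟩ := heq
      subst e1
      have e3 : x ^ s = x' ^ s := by
        have e4 := add_right_cancel e2
        exact mul_left_cancel₀ hd (by linear_combination e4)
      rw [hinj x x' e3]
  have hYne : (gr s A).Nonempty := hA.image _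
  have h4 := pluennecke_ruzsa_inequality_nsmul_sub_nsmul_sub hYne (gr s A) (2 * m + 1) (2 * m)
  rw [card_gr] at h4
  have h4' : (#((2 * m + 1) • gr s A - (2 * m) • gr s A) : ℝ) ≤
      (#(gr s A - gr s A) / #A : ℝ) ^ (2 * m + 1 + 2 * m) * #A := by
    have := (NNRat.cast_le (K := ℝ)).mpr h4
    push_cast at this
    exact this
  have hApos : (0 : ℝ) < #A := by exact_mod_cast card_pos.mpr hA
  have h5 : (#V : ℝ) ≤ (#(gr s A - gr s A) / #A : ℝ) ^ (4 * m + 1) := by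
    have e1 : (#V * #A : ℝ) ≤ (#(gr s A - gr s A) / #A : ℝ) ^ (4 * m + 1) * #A := by
      calc (#V * #A : ℝ) ≤ #((2 * m + 1) • gr s A - (2 * m) • gr s A) := by exact_mod_cast h3
        _ ≤ _ := h4'
        _ = _ := by
          congr 2
          ring
    exact le_of_mul_le_mul_right e1 hApos
  calc (#A : ℝ) ≤ #Z * #V := by exact_mod_cast h2
    _ ≤ n * (#(gr s A - gr s A) / #A : ℝ) ^ (4 * m + 1) :=
      mul_le_mul hZ h5 (by positivity) ((Nat.cast_nonneg _).trans hZ)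

end Pool.Agent.C24e09
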