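import Mathlib
import Pool.Agent.Lib.MP_c24e09_co.Cover

/-!
# The structure lemma: a power map with many relations `(1 + w)^s = C₁ + C₂ w^s`
-/

set_option autoImplicit false
open Finset
open scoped Pointwise

namespace Pool.Agent.C24e09

variable {p : ℕ} [Fact p.Prime]

/-- The base set of the graph. -/
def As (W : Finset (ZMod p)) : Finset (ZMod p) := (Vs W).image fun v => v⁻¹

theorem card_As (W : Finset (ZMod p)) : #(As W) = #(Vs W) :=
  card_image_of_injective _ inv_injective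

theorem Yg_eq (W : Finset (ZMod p)) (s : ℕ) : Yg W s = gr s (As W) := by
  unfold Yg gr As
  rw [image_image]
  rfl

theorem zero_notMem_As (W : Finset (ZMod p)) (hW : 0 ∉ W) : 0 ∉ As W := by
  intro h
  rw [As, mem_image] at h
  obtain ⟨v, hv, h0⟩ := h
  rw [inv_eq_zero] at h0
  rw [Vs, mem_filter] at hv
  exact hW (h0 ▸ hv.1)

/-- The good multipliers. -/
def Ds (W : Finset (ZMod p)) : Finset (ZMod p) := {u | #W ^ 2 ≤ 8 * p * pop (As W) u}

theorem card_Ds (W : Finset (ZMod p)) (hW : 0 ∉ W) (hb : 0 < #W) : #W ≤ 4 * #(Ds W) := by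
  have hp : 0 < p := (Fact.out : p.Prime).pos
  have h1 := card_popular (As W) (zero_notMem_As W hW) (8 * p) (#W ^ 2)
  have h2 := card_Vs W hW hb
  rw [← card_As] at h2
  change 8 * p * #(As W) ^ 2 ≤ 8 * p * (#(Ds W) * #(As W)) + p * #W ^ 2 at h1
  have h3 : 8 * #(As W) ^ 2 ≤ 8 * (#(Ds W) * #(As W)) + #W ^ 2 := by
    apply Nat.le_of_mul_le_mul_left _ hp
    calc p * (8 * #(As W) ^ 2) = 8 * p * #(As W) ^ 2 := by ring
      _ ≤ _ := h1
      _ = _ := by ring
  generalize #(As W) = a at *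
  generalize #(Ds W) = d at *
  generalize #W = b at *
  by_contra hcon
  push Not at hcon
  have ha : 0 < a := by omega
  have h4 : 4 * (d * a) < b * a := by
    calc 4 * (d * a) = (4 * d) * a := by ring
      _ < b * a := Nat.mul_lt_mul_of_pos_right hcon ha
  zify at *
  nlinarith [mul_nonneg (sub_nonneg.mpr h2) (show (0 : ℤ) ≤ 4 * a + b by positivity)]

theorem zero_notMem_Ds (W : Finset (ZMod p)) (hW : 0 ∉ W) (hb : 0 < #W) : 0 ∉ Ds W := by
  intro h
  rw [Ds, mem_filter] at h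
  have h1 : pop (As W) 0 = 0 := by
    unfold pop
    rw [card_eq_zero, filter_eq_empty_iff]
    intro w _
    rw [zero_mul]
    exact zero_notMem_As W hW
  rw [h1, mul_zero] at h
  have := pow_pos hb 2
  omega

/-- The diagonal multiplier. -/
def tm (s : ℕ) (u : ZMod p) : ZMod p × ZMod p := (u, u ^ s)

theorem tm_mul (s : ℕ) (u v : ZMod p) : tm s u * tm s v = tm s (u * v) := by
  unfold tm
  rw [Prod.mk_mul_mk, mul_pow]

theorem cov_tm (A : Finset (ZMod p)) (s : ℕ) (u : ZMod p) (hu0 : u ≠ 0) {θ : ℝ} (hθ : 0 < θ)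
    (hu : θ ≤ pop A u) :
    Cov (gr s A) (tm s u) (#(gr s A - gr s A) / θ) 1 := by
  set Y := gr s A with hY
  set Y' := (({x ∈ A | u * x ∈ A} : Finset (ZMod p)).image fun x => (u * x, (u * x) ^ s)) with hY'
  have hcard : #Y' = pop A u := by
    rw [hY', card_image_of_injective]
    · rfl
    · intro x y h
      exact mul_left_cancel₀ hu0 (congrArg Prod.fst h)
  have hsub : Y' ⊆ Y := by
    intro y hy
    rw [hY', mem_image] at hy
    obtain ⟨x, hx, rfl⟩ := hy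
    rw [mem_filter] at hx
    exact mem_image_of_mem _ hx.2
  have hne : Y'.Nonempty := by
    rw [← card_pos, hcard]
    have : (0 : ℝ) < pop A u := hθ.trans_le hu
    exact_mod_cast this
  have hsub' : Y' ⊆ Y.image (tm s u * ·) := by
    intro y hy
    rw [hY', mem_image] at hy
    obtain ⟨x, hx, rfl⟩ := hy
    rw [mem_filter] at hx
    refine mem_image.mpr ⟨(x, x ^ s), mem_image_of_mem _ hx.1, ?_⟩
    unfold tm
    rw [Prod.mk_mul_mk, mul_pow]
  -- the covering lemma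
  have h1 : (#(Y.image (tm s u * ·) + -Y') : ℝ) ≤ (#(Y - Y) / θ) * #(-Y') := by
    have e1 : #(Y.image (tm s u * ·) + -Y') ≤ #(Y - Y) := by
      calc #(Y.image (tm s u * ·) + -Y') ≤ #((Y - Y).image (tm s u * ·)) := by
            apply card_le_card
            intro z hz
            obtain ⟨a, ha, b, hb, rfl⟩ := mem_add.mp hz
            rw [mem_neg] at hb
            obtain ⟨c, hc, rfl⟩ := hb
            obtain ⟨a', ha', rfl⟩ := mem_image.mp ha
            obtain ⟨c', hc', rfl⟩ := mem_image.mp (hsub' hc)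
            refine mem_image.mpr ⟨a' - c', sub_mem_sub ha' hc', ?_⟩
            ring
        _ ≤ #(Y - Y) := card_image_le
    have e2 : (#(-Y') : ℝ) = pop A u := by rw [card_neg, hcard]
    rw [e2]
    calc (#(Y.image (tm s u * ·) + -Y') : ℝ) ≤ #(Y - Y) := by exact_mod_cast e1
      _ = (#(Y - Y) / θ) * θ := by field_simp
      _ ≤ (#(Y - Y) / θ) * pop A u := by gcongr
  obtain ⟨Z, -, hZ, hcov⟩ := ruzsa_covering_add (neg_nonempty_iff.mpr hne) h1
  refine ⟨Z, hZ, fun y hy => ?_⟩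
  have h2 := hcov (mem_image_of_mem (tm s u * ·) hy)
  rw [one_nsmul]
  refine add_subset_add_left ?_ h2
  intro z hz
  obtain ⟨a, ha, b, hb, rfl⟩ := mem_sub.mp hz
  rw [mem_neg] at ha hb
  obtain ⟨a', ha', rfl⟩ := ha
  obtain ⟨b', hb', rfl⟩ := hb
  rw [neg_sub_neg]
  exact sub_mem_sub (hsub hb') (hsub ha')

theorem numeric_id (c B : ℝ) :
    B * (c * ((c ^ 14 * B ^ 13) ^ 48 * (c ^ 12 * B ^ 12) ^ 133)) = c ^ 2269 * B ^ 2221 := by
  ring

/-- **Structure lemma.** If `(1 + w) ^ s = C₁ + C₂ w ^ s` for `b = p / B` values of `w`, then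
`x ^ s = x` for at least `b / 4` nonzero values of `x`, provided `p` is large in terms of `B`. -/
theorem structure_lemma (W : Finset (ZMod p)) (hW : 0 ∉ W) (s : ℕ)
    (hinj : ∀ x y : ZMod p, x ^ s = y ^ s → x = y) (C₁ C₂ : ZMod p)
    (hC : C₁ ≠ 0) (hrel : ∀ w ∈ W, (1 + w) ^ s = C₁ + C₂ * w ^ s)
    (B : ℝ) (hB : (p : ℝ) = B * #W) (hlarge : 2 ^ 2269 * B ^ 2221 < (p : ℝ)) :
    #W ≤ 4 * #{x : ZMod p | x ≠ 0 ∧ x ^ s = x} := by
  have hp : 0 < p := (Fact.out : p.Prime).pos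
  have hpR : (0 : ℝ) < p := by exact_mod_cast hp
  have hb : 0 < #W := by
    rcases Nat.eq_zero_or_pos (#W) with h | h
    · rw [h, Nat.cast_zero, mul_zero] at hB
      exact absurd hB hpR.ne'
    · exact h
  have hbR : (0 : ℝ) < #W := by exact_mod_cast hb
  have hbp : #W ≤ p := by
    calc #W ≤ #(univ : Finset (ZMod p)) := card_le_univ _
      _ = p := by rw [card_univ, ZMod.card]
  have hbpR : (#W : ℝ) ≤ p := by exact_mod_cast hbp
  have hB1 : 1 ≤ B := by
    by_contra hcon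
    push Not at hcon
    nlinarith
  set A := As W with hA
  have hA2 : #W ≤ 2 * #A := by
    rw [hA, card_As]
    exact card_Vs W hW hb
  have hApos : 0 < #A := by omega
  have hAne : A.Nonempty := card_pos.mp hApos
  have hAR : (0 : ℝ) < #A := by exact_mod_cast hApos
  have hA2R : (#W : ℝ) ≤ 2 * #A := by exact_mod_cast hA2
  set Y := gr s A with hY
  have hdoub : (#(Y - Y) : ℝ) * (#W : ℝ) ^ 11 ≤ 2 ^ 11 * (p : ℝ) ^ 12 := by
    have := doubling W hW hb s C₁ C₂ hC hrel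
    rw [Yg_eq, ← hA, ← hY] at this
    exact_mod_cast this
  have hYY : (#(Y - Y) : ℝ) ≤ 2 ^ 11 * B ^ 11 * p := by
    have e1 : (2 : ℝ) ^ 11 * (p : ℝ) ^ 12 = (2 ^ 11 * B ^ 11 * p) * (#W : ℝ) ^ 11 := by
      calc (2 : ℝ) ^ 11 * (p : ℝ) ^ 12 = 2 ^ 11 * (p : ℝ) ^ 11 * p := by ring
        _ = 2 ^ 11 * (B * #W) ^ 11 * p := by rw [← hB]
        _ = _ := by ring
    rw [e1] at hdoub
    exact le_of_mul_le_mul_right hdoub (pow_pos hbR 11)
  have hK2 : (#(Y - Y) / #A : ℝ) ≤ 2 ^ 12 * B ^ 12 := by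
    rw [div_le_iff₀ hAR]
    calc (#(Y - Y) : ℝ) ≤ 2 ^ 11 * B ^ 11 * p := hYY
      _ = 2 ^ 11 * B ^ 11 * (B * #W) := by rw [← hB]
      _ ≤ 2 ^ 11 * B ^ 11 * (B * (2 * #A)) := by gcongr
      _ = 2 ^ 12 * B ^ 12 * #A := by ring
  have hK1 : (1 : ℝ) ≤ #(Y - Y) / #A := by
    rw [one_le_div hAR]
    have : #A ≤ #(Y - Y) := by
      rw [← card_gr s A]
      obtain ⟨y, hy⟩ : Y.Nonempty := hAne.image _
      exact card_le_card_sub_right ⟨y, hy⟩
    exact_mod_cast this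
  set n₁ : ℝ := 2 ^ 14 * B ^ 13 with hn₁
  have hn₁1 : 1 ≤ n₁ := by
    rw [hn₁]
    have := one_le_pow₀ hB1 (n := 13)
    nlinarith
  -- contradiction lemma
  have hcontra : ∀ (n : ℝ) (m : ℕ) (d : ZMod p), Cov Y (0, d) n m → n ≤ n₁ ^ 48 → m ≤ 33 →
      d = 0 := by
    intro n m d hcov hn hm
    by_contra hd
    have h1 := hcov.zero_fst A hAne hinj hd
    have h2 : (#(Y - Y) / #A : ℝ) ^ (4 * m + 1) ≤ (2 ^ 12 * B ^ 12) ^ 133 := by
      calc (#(Y - Y) / #A : ℝ) ^ (4 * m + 1) ≤ (#(Y - Y) / #A : ℝ) ^ 133 :=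
            pow_le_pow_right₀ hK1 (by omega)
        _ ≤ (2 ^ 12 * B ^ 12) ^ 133 := by gcongr
    have h3 : (#A : ℝ) ≤ n₁ ^ 48 * (2 ^ 12 * B ^ 12) ^ 133 :=
      h1.trans (mul_le_mul hn h2 (by positivity) (by positivity))
    have h4 : (p : ℝ) ≤ 2 ^ 2269 * B ^ 2221 := by
      calc (p : ℝ) = B * #W := hB
        _ ≤ B * (2 * #A) := by gcongr
        _ ≤ B * (2 * (n₁ ^ 48 * (2 ^ 12 * B ^ 12) ^ 133)) := by gcongr
        _ = 2 ^ 2269 * B ^ 2221 := by
          rw [hn₁]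
          exact numeric_id 2 B
    exact absurd (hlarge.trans_le h4) (lt_irrefl _)
  have hp32 : 32 * B ^ 2 ≤ p := by
    have hB2 : B ^ 2 ≤ B ^ 2221 := pow_le_pow_right₀ hB1 (by norm_num)
    have e1 : (32 : ℝ) ≤ 2 ^ 2269 := by
      calc (32 : ℝ) = 2 ^ 5 := by norm_num
        _ ≤ 2 ^ 2269 := pow_le_pow_right₀ (by norm_num) (by norm_num)
    have e2 : 32 * B ^ 2 ≤ 2 ^ 2269 * B ^ 2221 := by
      apply mul_le_mul e1 hB2 (by positivity) (by positivity)
    exact e2.trans hlarge.le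
  clear hlarge
  -- multipliers from `Ds W`
  have hD : ∀ u ∈ Ds W, Cov Y (tm s u) n₁ 1 := by
    intro u hu
    have hu0 : u ≠ 0 := fun h => zero_notMem_Ds W hW hb (h ▸ hu)
    rw [Ds, mem_filter] at hu
    have h1 : ((#W : ℝ) ^ 2 / (8 * p)) ≤ pop A u := by
      rw [div_le_iff₀ (by positivity)]
      have : ((#W : ℝ)) ^ 2 ≤ 8 * p * pop (As W) u := by exact_mod_cast hu.2
      calc (#W : ℝ) ^ 2 ≤ 8 * p * pop (As W) u := this
        _ = _ := by rw [hA]; ring
    refine (cov_tm A s u hu0 (by positivity) h1).mono ?_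
    rw [div_le_iff₀ (by positivity)]
    calc (#(gr s A - gr s A) : ℝ) ≤ 2 ^ 11 * B ^ 11 * p := hYY
      _ = 2 ^ 14 * B ^ 13 * ((#W : ℝ) ^ 2 / (8 * p)) := by
        have : (p : ℝ) = B * #W := hB
        field_simp
        rw [this]
        ring
  have hDD : ∀ u ∈ Ds W, ∀ v ∈ Ds W, Cov Y (tm s (u * v)) (n₁ ^ 3) 2 := by
    intro u hu v hv
    have := (hD u hu).mul (hD v hv)
    rw [tm_mul] at this
    refine this.mono (le_of_eq (by ring))
  have hp4 : 2 * p ≤ #(Ds W) ^ 2 ∧ 3 < p := by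
    have h1 := card_Ds W hW hb
    have h1R : (#W : ℝ) ≤ 4 * #(Ds W) := by exact_mod_cast h1
    have h2 : 32 * B ^ 2 ≤ p := hp32
    have hB21 : 1 ≤ B ^ 2 := one_le_pow₀ hB1
    constructor
    · have h3 : 2 * (p : ℝ) ≤ (#(Ds W) : ℝ) ^ 2 := by
        have h4 : 32 * (p : ℝ) ≤ (#W : ℝ) ^ 2 := by
          have h5 : B ^ 2 * (32 * p) ≤ B ^ 2 * (#W : ℝ) ^ 2 := by
            calc B ^ 2 * (32 * (p : ℝ)) = (32 * B ^ 2) * (p : ℝ) := by ring
              _ ≤ (p : ℝ) * (p : ℝ) := by gcongr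
              _ = (B * #W) * (B * #W) := by rw [← hB]
              _ = B ^ 2 * (#W : ℝ) ^ 2 := by ring
          exact le_of_mul_le_mul_left h5 (by positivity)
        have h8 : (#W : ℝ) ^ 2 ≤ (4 * #(Ds W)) ^ 2 := by gcongr
        nlinarith
      exact_mod_cast h3
    · have : (3 : ℝ) < p := by linarith
      exact_mod_cast this
  obtain ⟨b₁, hb₁, b₂, hb₂, a₁, ha₁, a₂, ha₂, height⟩ := eight (Ds W) hp4.1 hp4.2
  have hrep : ∀ x : ZMod p, ∃ T : ZMod p × ZMod p, T.1 = x ∧ Cov Y T (n₁ ^ 24) 16 := by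
    intro x
    obtain ⟨a, ha, b, hb, a', ha', b', hb', hx⟩ := height x
    refine ⟨tm s (b₂ * a) - tm s (b₁ * a) + tm s (a₁ * b) - tm s (a₂ * b) +
      (tm s (b₂ * a') - tm s (b₁ * a') + tm s (a₁ * b') - tm s (a₂ * b')), ?_, ?_⟩
    · rw [hx]
      rfl
    · have h1 := (((hDD b₂ hb₂ a ha).sub (hDD b₁ hb₁ a ha)).add (hDD a₁ ha₁ b hb)).sub
        (hDD a₂ ha₂ b hb)
      have h2 := (((hDD b₂ hb₂ a' ha').sub (hDD b₁ hb₁ a' ha')).add (hDD a₁ ha₁ b' hb')).sub
        (hDD a₂ ha₂ b' hb')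
      exact (h1.add h2).mono (le_of_eq (by ring))
  have hlin : ∀ (n : ℕ) (T : ZMod p × ZMod p), T.1 = n → Cov Y T (n₁ ^ 24) 16 → T.2 = n := by
    intro n
    induction n with
    | zero =>
      intro T hT hcov
      have h1 : T = (0, T.2) := Prod.ext (by rw [hT, Nat.cast_zero]) rfl
      rw [h1] at hcov
      rw [Nat.cast_zero]
      exact hcontra _ _ _ hcov (pow_le_pow_right₀ hn₁1 (by norm_num)) (by norm_num)
    | succ n ih =>
      intro T hT hcov
      obtain ⟨T', hT', hcov'⟩ := hrep n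
      have h2 := ih T' hT' hcov'
      have h3 := (hcov.sub hcov').sub (Cov.one (hAne.image fun x => (x, x ^ s)))
      have h4 : T - T' - 1 = (0, T.2 - T'.2 - 1) := by
        refine Prod.ext ?_ rfl
        change T.1 - T'.1 - 1 = 0
        rw [hT, hT', Nat.cast_succ]
        ring
      have h3' : Cov Y (0, T.2 - T'.2 - 1) (n₁ ^ 24 * n₁ ^ 24 * 1) 33 := by
        rw [← h4]
        exact h3
      have h5 := hcontra _ _ _ h3' (le_of_eq (by ring)) (by norm_num)
      rw [h2] at h5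
      rw [Nat.cast_succ]
      linear_combination h5
  have hfin : ∀ u ∈ Ds W, ∀ v ∈ Ds W, (u * v) ^ s = u * v := by
    intro u hu v hv
    obtain ⟨T', hT', hcov'⟩ := hrep (u * v)
    have h1 : ((ZMod.val (u * v) : ℕ) : ZMod p) = u * v := ZMod.natCast_zmod_val _
    have h2 := hlin (ZMod.val (u * v)) T' (by rw [hT', h1]) hcov'
    rw [h1] at h2
    have h3 := (hDD u hu v hv).sub hcov'
    have h4 : tm s (u * v) - T' = (0, (u * v) ^ s - u * v) := by
      refine Prod.ext ?_ ?_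
      · change u * v - T'.1 = 0
        rw [hT', sub_self]
      · change (u * v) ^ s - T'.2 = _
        rw [h2]
    rw [h4] at h3
    have h5 := hcontra _ _ _ h3 (by
      rw [← pow_add]
      exact pow_le_pow_right₀ hn₁1 (by norm_num)) (by norm_num)
    exact sub_eq_zero.mp h5
  have h1 := card_Ds W hW hb
  have h2 : #(Ds W) ≤ #{x : ZMod p | x ≠ 0 ∧ x ^ s = x} := by
    have h3 : (Ds W).Nonempty := by
      rw [← card_pos]
      omega
    obtain ⟨u, hu⟩ := h3
    have hu0 : u ≠ 0 := fun h => zero_notMem_Ds W hW hb (h ▸ hu)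
    apply card_le_card_of_injOn (u * ·)
    · intro v hv
      rw [mem_coe] at hv
      have hv0 : v ≠ 0 := fun h => zero_notMem_Ds W hW hb (h ▸ hv)
      simp only [coe_filter, Set.mem_ofPred_eq, mem_univ, true_and]
      exact ⟨mul_ne_zero hu0 hv0, hfin u hu v hv⟩
    · exact (mul_right_injective₀ hu0).injOn
  omega

end Pool.Agent.C24e09
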