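import Mathlib
import Pool.Agent.Lib.MP_c24e09_co.Struct
import Pool.Agent.Lib.MP_c24e09_co.Power

/-!
# Many points on `A x ^ r + B (1 - x) ^ s = 1` force many fixed points of the power maps
-/

set_option autoImplicit false
open Finset
open scoped Pointwise

namespace Pool.Agent.C24e09

variable {p : ℕ} [Fact p.Prime]

theorem exists_ratio (hp : 3 ≤ p) (S : Finset (ZMod p)) (h0 : 0 ∉ S) :
    ∃ a : ZMod p, a ≠ 0 ∧ a ≠ 1 ∧ #S ^ 2 ≤ p * #{x ∈ S | a * x ∈ S} + #S := by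
  by_contra hcon
  push Not at hcon
  -- count pairs by ratio
  have h1 : #S ^ 2 = ∑ a : ZMod p, #{x ∈ S | x ≠ 0 ∧ a * x ∈ S} := by
    have e1 : #S ^ 2 = #(S ×ˢ S) := by rw [card_product, sq]
    rw [e1, card_eq_sum_card_fiberwise (f := fun z : ZMod p × ZMod p => z.2 / z.1)
      (t := (univ : Finset (ZMod p))) (fun _ _ => mem_coe.mpr (mem_univ _))]
    apply sum_congr rfl
    intro a _
    apply card_bij' (fun z _ => z.1) (fun x _ => (x, a * x))
    · intro z hz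
      rw [mem_filter, mem_product] at hz
      have hz0 : z.1 ≠ 0 := fun h => h0 (h ▸ hz.1.1)
      rw [mem_filter]
      refine ⟨hz.1.1, hz0, ?_⟩
      rw [← hz.2, div_mul_cancel₀ _ hz0]
      exact hz.1.2
    · intro x hx
      rw [mem_filter] at hx
      rw [mem_filter, mem_product]
      refine ⟨⟨hx.1, hx.2.2⟩, ?_⟩
      change a * x / x = a
      rw [mul_div_assoc, div_self hx.2.1, mul_one]
    · intro z hz
      rw [mem_filter, mem_product] at hz
      have hz0 : z.1 ≠ 0 := fun h => h0 (h ▸ hz.1.1)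
      refine Prod.ext rfl ?_
      change a * z.1 = z.2
      rw [← hz.2, div_mul_cancel₀ _ hz0]
    · intro x _
      rfl
  have h2 : ∀ a : ZMod p, #{x ∈ S | x ≠ 0 ∧ a * x ∈ S} = #{x ∈ S | a * x ∈ S} := by
    intro a
    congr 1
    apply filter_congr
    intro x hx
    have : x ≠ 0 := fun h => h0 (h ▸ hx)
    tauto
  simp_rw [h2] at h1
  have h3 : #{x ∈ S | (0 : ZMod p) * x ∈ S} = 0 := by
    rw [card_eq_zero, filter_eq_empty_iff]
    intro x _
    rw [zero_mul]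
    exact h0
  have h4 : #{x ∈ S | (1 : ZMod p) * x ∈ S} = #S := by
    congr 1
    apply filter_true_of_mem
    intro x hx
    rw [one_mul]
    exact hx
  have h5 : ∑ a : ZMod p, #{x ∈ S | a * x ∈ S} =
      #S + ∑ a ∈ ((univ : Finset (ZMod p)).erase 0).erase 1, #{x ∈ S | a * x ∈ S} := by
    rw [← add_sum_erase univ _ (mem_univ (0 : ZMod p)), h3, zero_add,
      ← add_sum_erase _ _ (mem_erase.mpr ⟨one_ne_zero, mem_univ (1 : ZMod p)⟩), h4]
  set T := ((univ : Finset (ZMod p)).erase 0).erase 1 with hT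
  have hTcard : #T = p - 2 := by
    rw [hT, card_erase_of_mem (mem_erase.mpr ⟨one_ne_zero, mem_univ (1 : ZMod p)⟩),
      card_erase_of_mem (mem_univ _), card_univ, ZMod.card]
    omega
  have hTne : T.Nonempty := by
    rw [← card_pos, hTcard]
    omega
  -- each summand is small
  have h6 : ∑ a ∈ T, (p * #{x ∈ S | a * x ∈ S} + #S) < ∑ _a ∈ T, #S ^ 2 := by
    apply sum_lt_sum_of_nonempty hTne
    intro a ha
    rw [hT, mem_erase, mem_erase] at ha
    exact hcon a ha.2.1 ha.1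
  rw [sum_add_distrib, ← mul_sum, sum_const, sum_const, hTcard, smul_eq_mul, smul_eq_mul] at h6
  rw [h5] at h1
  generalize ∑ a ∈ T, #{x ∈ S | a * x ∈ S} = τ at *
  generalize #S = n at *
  obtain ⟨k, rfl⟩ : ∃ k, p = k + 2 := ⟨p - 2, by omega⟩
  rw [Nat.add_sub_cancel] at h6
  have h7 : k * n ^ 2 = k * (n + τ) := by rw [h1]
  nlinarith

/-- Points on `A x ^ r + B (1 - x) ^ s = 1`. -/
def OnCurve (r s : ℕ) (A B : ZMod p) (x : ZMod p) : Prop :=
  x ≠ 0 ∧ x ≠ 1 ∧ A * x ^ r + B * (1 - x) ^ s = 1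

theorem OnCurve.symm {r s : ℕ} {A B x : ZMod p} (h : OnCurve r s A B x) :
    OnCurve s r B A (1 - x) := by
  refine ⟨sub_ne_zero.mpr h.2.1.symm, ?_, ?_⟩
  · intro h1
    apply h.1
    linear_combination -h1
  · rw [sub_sub_cancel]
    linear_combination h.2.2

theorem numeric2 (n p : ℝ) (hp : 0 < p) (hn : 0 < n) (w : ℝ) (hw : n ^ 2 ≤ 2 * p * w)
    (hw0 : 0 < w)
    (hL : (2 : ℝ) ^ 4490 * p ^ 4441 < n ^ 4442) : (2 : ℝ) ^ 2269 * (p / w) ^ 2221 < p := by
  have h1 : p / w ≤ 2 * p ^ 2 / n ^ 2 := by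
    rw [div_le_div_iff₀ hw0 (by positivity)]
    nlinarith
  have hc : ∀ c : ℝ, 0 < c → c ^ 2269 * (c * p ^ 2 / n ^ 2) ^ 2221 =
      (c ^ 4490 * p ^ 4441) * p / n ^ 4442 := by
    intro c hc
    rw [div_pow, mul_pow, ← pow_mul, ← pow_mul, show 2 * 2221 = 4442 from rfl]
    field_simp
  calc (2 : ℝ) ^ 2269 * (p / w) ^ 2221 ≤ 2 ^ 2269 * (2 * p ^ 2 / n ^ 2) ^ 2221 := by gcongr
    _ = (2 ^ 4490 * p ^ 4441) * p / n ^ 4442 := hc 2 two_pos
    _ < p := by
      rw [div_lt_iff₀ (by positivity), mul_comm]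
      exact mul_lt_mul_of_pos_left hL hp

theorem Nat.pow_le_one {n : ℕ} (h : n ≤ 1) (k : ℕ) : n ^ k ≤ 1 := by
  calc n ^ k ≤ 1 ^ k := Nat.pow_le_pow_left h _
    _ = 1 := one_pow _

/-- **Main counting lemma.** -/
theorem fixed_points (hp : 3 ≤ p) {r s : ℕ} (hr : r.Coprime (p - 1)) (hs : s.Coprime (p - 1))
    {A B : ZMod p} (hB : B ≠ 0) (S : Finset (ZMod p))
    (hS : ∀ x ∈ S, OnCurve r s A B x) (hL : 2 ^ 4490 * p ^ 4441 < #S ^ 4442) :
    #S ^ 2 ≤ 8 * p * #{x : ZMod p | x ≠ 0 ∧ x ^ s = x} := by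
  have h0 : (0 : ZMod p) ∉ S := fun h => (hS 0 h).1 rfl
  have hp0 : 0 < p := by omega
  have hn2 : 2 ≤ #S := by
    by_contra hcon
    have h1 : #S ^ 4442 ≤ 1 := Nat.pow_le_one (Nat.lt_succ_iff.mp (not_le.mp hcon)) _
    have h2 : 1 ≤ 2 ^ 4490 * p ^ 4441 := Nat.one_le_iff_ne_zero.mpr (by positivity)
    exact absurd hL (not_lt.mpr (h1.trans h2))
  obtain ⟨a, ha0, ha1, ha⟩ := exists_ratio hp S h0
  set S' := ({x ∈ S | a * x ∈ S} : Finset (ZMod p)) with hS'
  have h1a : (1 : ZMod p) - a ≠ 0 := sub_ne_zero.mpr ha1.symm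
  set φ : ZMod p → ZMod p := fun x => a * (1 - x) / (1 - a) with hφ
  have hφinj : Function.Injective φ := by
    intro x y h
    simp only [hφ] at h
    have h2 := (div_left_inj' h1a).mp h
    have h3 := mul_left_cancel₀ ha0 h2
    linear_combination -h3
  set W := S'.image φ with hW
  have hWcard : #W = #S' := card_image_of_injective _ hφinj
  have hW0 : (0 : ZMod p) ∉ W := by
    intro h
    rw [hW, mem_image] at h
    obtain ⟨x, hx, hx0⟩ := h
    rw [hS', mem_filter] at hx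
    have hx1 := (hS x hx.1).2.1
    simp only [hφ] at hx0
    rw [div_eq_zero_iff, mul_eq_zero] at hx0
    rcases hx0 with (h | h) | h
    · exact ha0 h
    · exact hx1 (sub_eq_zero.mp h).symm
    · exact h1a h
  have hinjr := pow_inj_of_coprime hr hp
  have har : a ^ r ≠ 1 := by
    intro h
    exact ha1 (hinjr a 1 (by rw [h, one_pow]))
  have hC : (1 - a ^ r) / (B * (1 - a) ^ s) ≠ 0 :=
    div_ne_zero (sub_ne_zero.mpr har.symm) (mul_ne_zero hB (pow_ne_zero _ h1a))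
  have hrel : ∀ w ∈ W, (1 + w) ^ s =
      (1 - a ^ r) / (B * (1 - a) ^ s) + (a ^ r / a ^ s) * w ^ s := by
    intro w hw
    rw [hW, mem_image] at hw
    obtain ⟨x, hx, rfl⟩ := hw
    rw [hS', mem_filter] at hx
    have e1 := (hS x hx.1).2.2
    have e2 := (hS (a * x) hx.2).2.2
    simp only [hφ]
    have e3 : 1 + a * (1 - x) / (1 - a) = (1 - a * x) / (1 - a) := by
      field_simp
      ring
    rw [e3, div_pow, div_pow, mul_pow]
    have hs' : (1 - a) ^ s ≠ 0 := pow_ne_zero _ h1a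
    have has : a ^ s ≠ 0 := pow_ne_zero _ ha0
    rw [mul_pow] at e2
    field_simp
    linear_combination e2 - a ^ r * e1
  have hWpos : 0 < #W := by
    rw [hWcard]
    by_contra hcon
    have h4 : #S' = 0 := by omega
    rw [h4, mul_zero, zero_add] at ha
    nlinarith
  have hn : #S ^ 2 ≤ 2 * p * #W := by
    rw [hWcard]
    have : 2 * #S ≤ #S ^ 2 := by
      rw [sq]
      exact Nat.mul_le_mul_right _ hn2
    nlinarith
  have hfin := structure_lemma W hW0 s (pow_inj_of_coprime hs hp) _ _ hC hrel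
    ((p : ℝ) / #W) (by
      have : (#W : ℝ) ≠ 0 := by exact_mod_cast hWpos.ne'
      field_simp) (by
      apply numeric2 (#S : ℝ) (p : ℝ) (by exact_mod_cast hp0) (by
        have : 0 < #S := by omega
        exact_mod_cast this) (#W : ℝ) (by exact_mod_cast hn) (by exact_mod_cast hWpos)
      exact_mod_cast hL)
  calc #S ^ 2 ≤ 2 * p * #W := hn
    _ ≤ 2 * p * (4 * #{x : ZMod p | x ≠ 0 ∧ x ^ s = x}) := Nat.mul_le_mul_left _ hfin
    _ = _ := by ring

end Pool.Agent.C24e09
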