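import Mathlib
import Pool.Agent.Lib.MP_c24e09_co.Ratio

/-!
# Class analysis
-/

set_option autoImplicit false
open Finset
open scoped Pointwise

namespace Pool.Agent.C24e09

variable {p : ℕ} [Fact p.Prime]

/-- Two cosets of a subgroup of order `n` cannot almost sum to one point. -/
theorem near_inv (H X Y Z : Finset (ZMod p)) (n E : ℕ) (hH : #H = n) (hn : 0 < n)
    (hH0 : ∀ h ∈ H, h ≠ 0) (hX : #X ≤ n) (hY : #Y ≤ n) (hHX : ∀ h ∈ H, ∀ x ∈ X, h * x ∈ X)
    (hHY : ∀ h ∈ H, ∀ y ∈ Y, h * y ∈ Y) (hZ : ∀ z ∈ Z, z ∈ X ∧ 1 - z ∈ Y)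
    (hZc : n ≤ #Z + E) (hnp : 2 * n ≤ p) : n ≤ 4 * E + 1 := by
  have hHne : H.Nonempty := by
    rw [← card_pos]
    omega
  have h1 : ∀ e ∈ H - H, n ≤ #{y ∈ Y | y + e ∈ Y} + 2 * E := by
    intro e he
    obtain ⟨h, hh, h', hh', rfl⟩ := mem_sub.mp he
    have e1 : #(Z.image (h * ·)) = #Z :=
      card_image_of_injective _ (mul_right_injective₀ (hH0 h hh))
    have e2 : #(Z.image (h' * ·)) = #Z :=
      card_image_of_injective _ (mul_right_injective₀ (hH0 h' hh'))
    have e3 : #(Z.image (h * ·) ∪ Z.image (h' * ·)) ≤ #X := by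
      apply card_le_card
      apply union_subset
      · intro x hx
        obtain ⟨z, hz, rfl⟩ := mem_image.mp hx
        exact hHX h hh z (hZ z hz).1
      · intro x hx
        obtain ⟨z, hz, rfl⟩ := mem_image.mp hx
        exact hHX h' hh' z (hZ z hz).1
    have e4 := card_union_add_card_inter (Z.image (h * ·)) (Z.image (h' * ·))
    have e5 : #(Z.image (h * ·) ∩ Z.image (h' * ·)) ≤ #{y ∈ Y | y + (h - h') ∈ Y} := by
      apply card_le_card_of_injOn (h' - ·)
      · intro x hx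
        rw [mem_coe, mem_inter, mem_image, mem_image] at hx
        obtain ⟨⟨z, hz, hzx⟩, ⟨z', hz', hzx'⟩⟩ := hx
        rw [mem_coe, mem_filter]
        constructor
        · change h' - x ∈ Y
          rw [← hzx', show h' - h' * z' = h' * (1 - z') by ring]
          exact hHY h' hh' _ (hZ z' hz').2
        · change h' - x + (h - h') ∈ Y
          rw [show h' - x + (h - h') = h - x by ring, ← hzx,
            show h - h * z = h * (1 - z) by ring]
          exact hHY h hh _ (hZ z hz).2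
      · intro x _ y _ hxy
        exact sub_right_injective hxy
    omega
  have h2 : ∑ e ∈ H - H, #{y ∈ Y | y + e ∈ Y} ≤ #Y ^ 2 := by
    have e1 : #{z ∈ Y ×ˢ Y | z.2 - z.1 ∈ H - H} ≤ #Y ^ 2 := by
      rw [sq, ← card_product]
      exact card_filter_le _ _
    refine le_trans (le_of_eq ?_) e1
    rw [card_eq_sum_card_fiberwise (f := fun z : ZMod p × ZMod p => z.2 - z.1) (t := H - H)
      (fun z hz => by
        rw [mem_coe, mem_filter] at hz
        exact hz.2)]
    apply sum_congr rfl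
    intro e he
    apply card_bij' (fun y _ => (y, y + e)) (fun z _ => z.1)
    · intro y hy
      rw [mem_filter] at hy
      rw [mem_filter, mem_filter, mem_product]
      have : y + e - y = e := by ring
      exact ⟨⟨hy, by rw [this]; exact he⟩, this⟩
    · intro z hz
      rw [mem_filter, mem_filter, mem_product] at hz
      rw [mem_filter]
      refine ⟨hz.1.1.1, ?_⟩
      rw [← hz.2, add_sub_cancel]
      exact hz.1.1.2
    · intro y _
      rfl
    · intro z hz
      rw [mem_filter, mem_filter, mem_product] at hz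
      refine Prod.ext rfl ?_
      change z.1 + e = z.2
      rw [← hz.2, add_sub_cancel]
  have h3 : 2 * n - 1 ≤ #(H - H) := by
    have := ZMod.cauchy_davenport (Fact.out : p.Prime) hHne hHne.neg
    rw [← sub_eq_add_neg, card_neg, hH] at this
    omega
  have h4 : #(H - H) * n ≤ ∑ e ∈ H - H, (#{y ∈ Y | y + e ∈ Y} + 2 * E) := by
    rw [← smul_eq_mul, ← sum_const]
    exact sum_le_sum h1
  rw [sum_add_distrib, sum_const, smul_eq_mul] at h4
  have h5 : #Y ^ 2 ≤ n ^ 2 := Nat.pow_le_pow_left hY 2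
  by_contra hcon
  push Not at hcon
  generalize #(H - H) = D at *
  generalize ∑ e ∈ H - H, #{y ∈ Y | y + e ∈ Y} = τ at *
  have h6 : D * n ≤ n ^ 2 + D * (2 * E) := by omega
  obtain ⟨k, rfl⟩ : ∃ k, n = 2 * E + k := ⟨n - 2 * E, by omega⟩
  have h7 : D * k ≤ (2 * E + k) ^ 2 := by nlinarith
  have h8 : (2 * (2 * E + k) - 1) * k ≤ D * k := Nat.mul_le_mul_right _ h3
  obtain ⟨l, rfl⟩ : ∃ l, k = 2 * E + 2 + l := ⟨k - (2 * E + 2), by omega⟩
  have h9 : 2 * (2 * E + (2 * E + 2 + l)) - 1 = 8 * E + 3 + 2 * l := by omega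
  rw [h9] at h8
  nlinarith

/-- The solutions lying in the good class. -/
def Good (r s : ℕ) (A B : ZMod p) (S : Finset (ZMod p)) : Finset (ZMod p) :=
  {x ∈ S | A * x ^ (r - 1) = 1 ∧ B * (1 - x) ^ (s - 1) = 1}

theorem pow_pred_mul {r : ℕ} (hr : 0 < r) (x : ZMod p) : x ^ r = x ^ (r - 1) * x := by
  rw [← pow_succ, Nat.sub_add_cancel hr]

theorem card_le_good {r s : ℕ} (hr : 0 < r) (hs : 0 < s) {A B : ZMod p}
    (S : Finset (ZMod p)) (hS : ∀ x ∈ S, OnCurve r s A B x) :
    #S ≤ #(Good r s A B S) +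
      (p - 1) / Nat.gcd (r - 1) (p - 1) * ((p - 1) / Nat.gcd (s - 1) (p - 1)) := by
  have h1 : #(S \ Good r s A B S) ≤ #((({x : ZMod p | x ≠ 0} : Finset (ZMod p)).image
      (· ^ (r - 1))) ×ˢ (({x : ZMod p | x ≠ 0} : Finset (ZMod p)).image (· ^ (s - 1)))) := by
    apply card_le_card_of_injOn (fun x => (x ^ (r - 1), (1 - x) ^ (s - 1)))
    · intro x hx
      rw [mem_coe, mem_sdiff] at hx
      obtain ⟨h0, h1, -⟩ := hS x hx.1
      rw [mem_coe, mem_product]
      refine ⟨mem_image_of_mem (· ^ (r - 1)) (mem_filter.mpr ⟨mem_univ _, h0⟩),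
        mem_image_of_mem (· ^ (s - 1)) (mem_filter.mpr ⟨mem_univ _, ?_⟩)⟩
      exact sub_ne_zero.mpr h1.symm
    · intro x hx y hy hxy
      rw [mem_coe, mem_sdiff, Good, mem_filter] at hx hy
      obtain ⟨-, -, hx1⟩ := hS x hx.1
      obtain ⟨-, -, hy1⟩ := hS y hy.1
      have e1 : x ^ (r - 1) = y ^ (r - 1) := congrArg Prod.fst hxy
      have e2 : (1 - x) ^ (s - 1) = (1 - y) ^ (s - 1) := congrArg Prod.snd hxy
      rw [pow_pred_mul hr, pow_pred_mul hs] at hx1 hy1
      rw [← e1, ← e2] at hy1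
      by_contra hne
      have e3 : A * x ^ (r - 1) = B * (1 - x) ^ (s - 1) := by
        have : (A * x ^ (r - 1) - B * (1 - x) ^ (s - 1)) * (x - y) = 0 := by
          linear_combination hx1 - hy1
        rcases mul_eq_zero.mp this with h | h
        · exact sub_eq_zero.mp h
        · exact absurd (sub_eq_zero.mp h) hne
      have e4 : B * (1 - x) ^ (s - 1) = 1 := by
        linear_combination hx1 - x * e3
      exact hx.2 ⟨hx.1, e3.trans e4, e4⟩
  rw [card_product] at h1
  have h2 := Nat.mul_le_mul (card_values (p := p) (r - 1)) (card_values (p := p) (s - 1))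
  have h3 : #S ≤ #(Good r s A B S) + #(S \ Good r s A B S) := by
    have := card_sdiff_add_card_inter S (Good r s A B S)
    have h4 : #(S ∩ Good r s A B S) ≤ #(Good r s A B S) := card_le_card inter_subset_right
    omega
  omega

theorem card_good_le {r s : ℕ} {A B : ZMod p} (S : Finset (ZMod p))
    (hS : ∀ x ∈ S, OnCurve r s A B x) :
    #(Good r s A B S) ≤ Nat.gcd (r - 1) (p - 1) := by
  refine le_trans (card_le_card ?_) (card_fibre (r - 1) A⁻¹)
  intro x hx
  rw [Good, mem_filter] at hx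
  rw [mem_filter]
  exact ⟨mem_univ _, (hS x hx.1).1, eq_inv_of_mul_eq_one_right hx.2.1⟩

theorem card_fixed_le {s : ℕ} (hs : 0 < s) :
    #{x : ZMod p | x ≠ 0 ∧ x ^ s = x} ≤ Nat.gcd (s - 1) (p - 1) := by
  refine le_trans (card_le_card ?_) (card_fibre (s - 1) 1)
  intro x hx
  rw [mem_filter] at hx ⊢
  refine ⟨mem_univ _, hx.2.1, ?_⟩
  have h1 := hx.2.2
  rw [pow_pred_mul hs] at h1
  exact (mul_eq_right₀ hx.2.1).mp h1

end Pool.Agent.C24e09
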