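import Mathlib
import Pool.Agent.Lib.MP_c24e09_co.Classes

/-!
# The bound for solutions of `A x ^ r + B (1 - x) ^ s = 1`
-/

set_option autoImplicit false
open Finset
open scoped Pointwise

namespace Pool.Agent.C24e09

variable {p : ℕ} [Fact p.Prime]

theorem hL8 {N p : ℕ} (hNp : N ≤ p) (hL : 2 ^ 4490 * p ^ 4441 < N ^ 4442) :
    2 ^ 15 * p ^ 7 < N ^ 8 := by
  by_contra hcon
  have hcon' := not_lt.mp hcon
  apply absurd hL
  apply not_lt.mpr
  calc N ^ 4442 = N ^ 8 * N ^ 4434 := by rw [← pow_add]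
    _ ≤ (2 ^ 15 * p ^ 7) * p ^ 4434 := Nat.mul_le_mul hcon' (Nat.pow_le_pow_left hNp _)
    _ = 2 ^ 15 * p ^ 4441 := by rw [mul_assoc, ← pow_add]
    _ ≤ _ := Nat.mul_le_mul_right _ (Nat.pow_le_pow_right two_pos (by norm_num))

theorem fixed_both (hp : 3 ≤ p) {r s : ℕ} (hr : r.Coprime (p - 1)) (hs : s.Coprime (p - 1))
    {A B : ZMod p} (hA : A ≠ 0) (hB : B ≠ 0) (S : Finset (ZMod p))
    (hS : ∀ x ∈ S, OnCurve r s A B x) (hL : 2 ^ 4490 * p ^ 4441 < #S ^ 4442) :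
    #S ^ 2 * ((p - 1) / Nat.gcd (r - 1) (p - 1)) ≤ 8 * p ^ 2 ∧
    #S ^ 2 * ((p - 1) / Nat.gcd (s - 1) (p - 1)) ≤ 8 * p ^ 2 := by
  have hpos : ∀ {k : ℕ}, k.Coprime (p - 1) → 0 < k := by
    intro k hk
    rcases Nat.eq_zero_or_pos k with rfl | h
    · rw [Nat.coprime_zero_left] at hk
      omega
    · exact h
  have key : ∀ {r s : ℕ} (_ : r.Coprime (p - 1)) (_ : s.Coprime (p - 1))
      {A B : ZMod p} (_ : B ≠ 0) (S : Finset (ZMod p))
      (_ : ∀ x ∈ S, OnCurve r s A B x) (_ : 2 ^ 4490 * p ^ 4441 < #S ^ 4442),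
      #S ^ 2 * ((p - 1) / Nat.gcd (s - 1) (p - 1)) ≤ 8 * p ^ 2 := by
    intro r s hr hs A B hB S hS hL
    have h1 := fixed_points hp hr hs hB S hS hL
    have h2 := card_fixed_le (p := p) (hpos hs)
    calc #S ^ 2 * ((p - 1) / Nat.gcd (s - 1) (p - 1))
        ≤ (8 * p * Nat.gcd (s - 1) (p - 1)) * ((p - 1) / Nat.gcd (s - 1) (p - 1)) :=
          Nat.mul_le_mul_right _ (h1.trans (Nat.mul_le_mul_left _ h2))
      _ = 8 * p * (Nat.gcd (s - 1) (p - 1) * ((p - 1) / Nat.gcd (s - 1) (p - 1))) := by ring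
      _ = 8 * p * (p - 1) := by rw [Nat.mul_div_cancel' (Nat.gcd_dvd_right _ _)]
      _ ≤ 8 * p * p := Nat.mul_le_mul_left _ (Nat.sub_le _ _)
      _ = 8 * p ^ 2 := by ring
  refine ⟨?_, key hr hs hB S hS hL⟩
  have hcard : #(S.image (1 - ·)) = #S := card_image_of_injective _ sub_right_injective
  have := key hs hr hA (S.image (1 - ·)) (by
    intro x hx
    obtain ⟨y, hy, rfl⟩ := mem_image.mp hx
    exact (hS y hy).symm) (by rw [hcard]; exact hL)
  rwa [hcard] at this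

/-- Arithmetic endgame. -/
theorem arith1 {N p t mr ms : ℕ} (hp : 2 ≤ p) (h8 : 2 ^ 15 * p ^ 7 < N ^ 8)
    (hr : N ^ 2 * mr ≤ 8 * p ^ 2) (hs : N ^ 2 * ms ≤ 8 * p ^ 2)
    (ht : N ^ 2 * t ≤ 8 * p ^ 2) (h : p - 1 ≤ 4 * t ^ 2 * (mr * ms)) : False := by
  have h1 : p ≤ 8 * t ^ 2 * (mr * ms) := by
    have : p ≤ 2 * (p - 1) := by omega
    calc p ≤ 2 * (p - 1) := this
      _ ≤ 2 * (4 * t ^ 2 * (mr * ms)) := Nat.mul_le_mul_left _ h
      _ = _ := by ring
  have h2 : p * N ^ 8 ≤ p * (2 ^ 15 * p ^ 7) := by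
    calc p * N ^ 8 ≤ (8 * t ^ 2 * (mr * ms)) * N ^ 8 := Nat.mul_le_mul_right _ h1
      _ = 8 * ((N ^ 2 * t) * (N ^ 2 * t)) * ((N ^ 2 * mr) * (N ^ 2 * ms)) := by ring
      _ ≤ 8 * ((8 * p ^ 2) * (8 * p ^ 2)) * ((8 * p ^ 2) * (8 * p ^ 2)) := by gcongr
      _ = p * (2 ^ 15 * p ^ 7) := by ring
  have h3 := Nat.le_of_mul_le_mul_left h2 (by omega)
  exact absurd h8 (not_lt.mpr h3)

/-- Case `r, s ≢ 1`. -/
theorem generic_case (hp : 5 ≤ p) {r s t : ℕ} (hr : r.Coprime (p - 1)) (hs : s.Coprime (p - 1))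
    {A B : ZMod p} (hA : A ≠ 0) (hB : B ≠ 0) (S : Finset (ZMod p))
    (hS : ∀ x ∈ S, OnCurve r s A B x) (hL : 2 ^ 4490 * p ^ 4441 < #S ^ 4442)
    (ht2 : 2 * t ∣ p - 1) (ht1 : 2 ≤ t)
    (ht : ∀ q : ℕ, q.Prime → 2 * q ∣ p - 1 → t ≤ q) (hr1 : ¬ (p - 1) ∣ (r - 1))
    (hs1 : ¬ (p - 1) ∣ (s - 1)) : #S < (p - 1) / t := by
  by_contra hcon
  push Not at hcon
  have hr0 : 0 < r := by
    rcases Nat.eq_zero_or_pos r with rfl | h
    · rw [Nat.coprime_zero_left] at hr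
      omega
    · exact h
  have hs0 : 0 < s := by
    rcases Nat.eq_zero_or_pos s with rfl | h
    · rw [Nat.coprime_zero_left] at hs
      omega
    · exact h
  obtain ⟨hfr, hfs⟩ := fixed_both (by omega) hr hs hA hB S hS hL
  have hSp : #S ≤ p := by
    calc #S ≤ #(univ : Finset (ZMod p)) := card_le_univ _
      _ = p := by rw [card_univ, ZMod.card]
  have h8 := hL8 hSp hL
  clear hL
  have htr := t_le hp hr hr1 ht
  have hts := t_le hp hs hs1 ht
  have htd : t ∣ p - 1 := (Dvd.intro_left 2 rfl).trans ht2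
  have hn := Nat.mul_div_cancel' htd
  have hdr := Nat.mul_div_cancel' (Nat.gcd_dvd_right (r - 1) (p - 1))
  have hds := Nat.mul_div_cancel' (Nat.gcd_dvd_right (s - 1) (p - 1))
  have hle := card_le_good hr0 hs0 S hS
  have hgr := card_good_le S hS
  have hgs : #(Good r s A B S) ≤ Nat.gcd (s - 1) (p - 1) := by
    have hcard : #((Good r s A B S).image (1 - ·)) = #(Good r s A B S) :=
      card_image_of_injective _ sub_right_injective
    rw [← hcard]
    refine le_trans (card_le_card ?_) (card_fibre (s - 1) B⁻¹)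
    intro x hx
    obtain ⟨y, hy, rfl⟩ := mem_image.mp hx
    rw [Good, mem_filter] at hy
    rw [mem_filter]
    exact ⟨mem_univ _, sub_ne_zero.mpr (hS y hy.1).2.1.symm, eq_inv_of_mul_eq_one_right hy.2.2⟩
  set mr := (p - 1) / Nat.gcd (r - 1) (p - 1) with hmr
  set ms := (p - 1) / Nat.gcd (s - 1) (p - 1) with hms
  set n := (p - 1) / t with hn'
  have htN : #S ^ 2 * t ≤ 8 * p ^ 2 := (Nat.mul_le_mul_left _ htr).trans hfr
  -- a helper for the case where one index is at least `t + 1`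
  have big : ∀ d m : ℕ, d * m = p - 1 → t + 1 ≤ m → #(Good r s A B S) ≤ d → False := by
    intro d m hdm hm hg
    have h1 : d * (t + 1) ≤ p - 1 := by
      rw [← hdm]
      exact Nat.mul_le_mul_left _ hm
    have h2 : n ≤ d + mr * ms := by omega
    have h3 : (t * (t + 1)) * n ≤ (t * (t + 1)) * (d + mr * ms) := Nat.mul_le_mul_left _ h2
    have h4 : (t * (t + 1)) * n = (t + 1) * (p - 1) := by rw [← hn]; ring
    have h5 : (t * (t + 1)) * (d + mr * ms) = t * (d * (t + 1)) + t * (t + 1) * (mr * ms) := by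
      ring
    have h6 : t * (d * (t + 1)) ≤ t * (p - 1) := Nat.mul_le_mul_left _ h1
    have h7 : p - 1 ≤ t * (t + 1) * (mr * ms) := by
      have : (t + 1) * (p - 1) = t * (p - 1) + (p - 1) := by ring
      omega
    have h9 : p - 1 ≤ 4 * t ^ 2 * (mr * ms) := by
      refine h7.trans (Nat.mul_le_mul_right _ ?_)
      nlinarith
    exact arith1 (by omega) h8 hfr hfs htN h9
  rcases Nat.lt_or_ge t mr with h | hmr_le
  · exact big _ _ hdr h hgr
  rcases Nat.lt_or_ge t ms with h | hms_le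
  · exact big _ _ hds h hgs
  have emr : mr = t := le_antisymm hmr_le htr
  have ems : ms = t := le_antisymm hms_le hts
  -- both gcds equal `n`
  have edr : Nat.gcd (r - 1) (p - 1) = n := by
    have h1 : Nat.gcd (r - 1) (p - 1) * t = t * n := by
      rw [emr] at hdr
      rw [hn, hdr]
    have h2 : t * Nat.gcd (r - 1) (p - 1) = t * n := by rw [mul_comm, h1]
    exact Nat.eq_of_mul_eq_mul_left (by omega) h2
  have eds : Nat.gcd (s - 1) (p - 1) = n := by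
    have h1 : Nat.gcd (s - 1) (p - 1) * t = t * n := by
      rw [ems] at hds
      rw [hn, hds]
    have h2 : t * Nat.gcd (s - 1) (p - 1) = t * n := by rw [mul_comm, h1]
    exact Nat.eq_of_mul_eq_mul_left (by omega) h2
  have hnd : n ∣ p - 1 := Dvd.intro_left t hn
  obtain ⟨H, hHc, hH⟩ := exists_H n hnd
  have hnpos : 0 < n := Nat.pos_of_dvd_of_pos hnd (by omega)
  have hinv : ∀ (e : ℕ) (c : ZMod p), n ∣ e → ∀ h ∈ H,
      ∀ x ∈ ({x : ZMod p | x ≠ 0 ∧ x ^ e = c} : Finset (ZMod p)),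
      h * x ∈ ({x : ZMod p | x ≠ 0 ∧ x ^ e = c} : Finset (ZMod p)) := by
    intro e c hne h hh x hx
    rw [mem_filter] at hx ⊢
    obtain ⟨hh0, hh1⟩ := hH h hh
    refine ⟨mem_univ _, mul_ne_zero hh0 hx.2.1, ?_⟩
    obtain ⟨k, rfl⟩ := hne
    rw [mul_pow, pow_mul, hh1, one_pow, one_mul]
    exact hx.2.2
  have hfinal := near_inv H {x : ZMod p | x ≠ 0 ∧ x ^ (r - 1) = A⁻¹}
    {x : ZMod p | x ≠ 0 ∧ x ^ (s - 1) = B⁻¹} (Good r s A B S) n (mr * ms) hHc hnpos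
    (fun h hh => (hH h hh).1) (edr ▸ card_fibre (r - 1) A⁻¹) (eds ▸ card_fibre (s - 1) B⁻¹)
    (hinv _ _ (edr ▸ Nat.gcd_dvd_left (r - 1) (p - 1)))
    (hinv _ _ (eds ▸ Nat.gcd_dvd_left (s - 1) (p - 1)))
    (by
      intro z hz
      rw [Good, mem_filter] at hz
      rw [mem_filter, mem_filter]
      exact ⟨⟨mem_univ _, (hS z hz.1).1, eq_inv_of_mul_eq_one_right hz.2.1⟩, mem_univ _,
        sub_ne_zero.mpr (hS z hz.1).2.1.symm, eq_inv_of_mul_eq_one_right hz.2.2⟩)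
    (by omega) (by
      have : 2 * n ≤ t * n := Nat.mul_le_mul_right _ ht1
      omega)
  rw [emr, ems] at hfinal
  rw [emr] at hfr
  -- `p - 1 = t n ≤ t (4 t ^ 2 + 1)`
  have h1 : p - 1 ≤ 4 * t ^ 2 * (t * t) := by
    calc p - 1 = t * n := hn.symm
      _ ≤ t * (4 * (t * t) + 1) := Nat.mul_le_mul_left _ hfinal
      _ ≤ 4 * t ^ 2 * (t * t) := by
        have e1 : 1 ≤ t * t := Nat.one_le_iff_ne_zero.mpr (by positivity)
        have e2 : 4 * (t * t) + 1 ≤ t * (4 * (t * t)) := by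
          calc 4 * (t * t) + 1 ≤ 2 * (4 * (t * t)) := by omega
            _ ≤ t * (4 * (t * t)) := Nat.mul_le_mul_right _ ht1
        calc t * (4 * (t * t) + 1) ≤ t * (t * (4 * (t * t))) := Nat.mul_le_mul_left _ e2
          _ = 4 * t ^ 2 * (t * t) := by ring
  exact arith1 (by omega) h8 hfr hfr hfr h1

end Pool.Agent.C24e09
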