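import Mathlib

/-!
# Welch and Golomb Costas permutations and their cross-correlation
-/

set_option autoImplicit false

namespace Pool.Agent.C24e09

/-- The cross-correlation `Ψ_{f,g}(u,v)` of `f, g : [n] → [n]`: the number of common elements of
`{(f(i) + v, i + u) : i ∈ [n]}` and `{(g(i), i) : i ∈ [n]}`, with addition in `ℤ`. -/
noncomputable def cross (n : ℕ) (f g : ℕ → ℕ) (u v : ℤ) : ℕ :=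
  Set.ncard ({z : ℤ × ℤ | ∃ i : ℕ, 1 ≤ i ∧ i ≤ n ∧ z = ((f i : ℤ) + v, (i : ℤ) + u)} ∩
    {z : ℤ × ℤ | ∃ i : ℕ, 1 ≤ i ∧ i ≤ n ∧ z = ((g i : ℤ), (i : ℤ))})

/-- `f : [p - 1] → [p - 1]` is the Welch permutation `f(i) ≡ α ^ (i - 1 + c) (mod p)`, where `α` is
a primitive root modulo `p` and `0 ≤ c ≤ p - 2`. -/
def IsW1 (p : ℕ) (α : ZMod p) (c : ℕ) (f : ℕ → ℕ) : Prop :=
  orderOf α = p - 1 ∧ c ≤ p - 2 ∧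
    ∀ i : ℕ, 1 ≤ i → i ≤ p - 1 →
      1 ≤ f i ∧ f i ≤ p - 1 ∧ ((f i : ℕ) : ZMod p) = α ^ (i - 1 + c)

/-- `f : [p - 2] → [p - 2]` is the Golomb permutation `α ^ i + β ^ f(i) = 1`, where `α` and `β` are
primitive elements of the field with `p` elements. -/
def IsG2 (p : ℕ) (α β : ZMod p) (f : ℕ → ℕ) : Prop :=
  orderOf α = p - 1 ∧ orderOf β = p - 1 ∧
    ∀ i : ℕ, 1 ≤ i → i ≤ p - 2 → 1 ≤ f i ∧ f i ≤ p - 2 ∧ α ^ i + β ^ f i = 1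

/-- All values `Ψ_{f₁,f₂}(u,v)` for `(u,v) ∈ ℤ²` and Welch permutations `f₁, f₂` for `p` built from
different primitive roots. -/
def W1Values (p : ℕ) : Set ℕ :=
  {N | ∃ (α₁ α₂ : ZMod p) (c₁ c₂ : ℕ) (f₁ f₂ : ℕ → ℕ) (u v : ℤ), IsW1 p α₁ c₁ f₁ ∧
    IsW1 p α₂ c₂ f₂ ∧ α₁ ≠ α₂ ∧ cross (p - 1) f₁ f₂ u v = N}

/-- All values `Ψ_{f₁,f₂}(u,v)` for `(u,v) ∈ ℤ²` and distinct Golomb permutations `f₁, f₂`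
of `[p - 2]`. -/
def G2Values (p : ℕ) : Set ℕ :=
  {N | ∃ (α₁ β₁ α₂ β₂ : ZMod p) (f₁ f₂ : ℕ → ℕ) (u v : ℤ), IsG2 p α₁ β₁ f₁ ∧
    IsG2 p α₂ β₂ f₂ ∧ (∃ i : ℕ, 1 ≤ i ∧ i ≤ p - 2 ∧ f₁ i ≠ f₂ i) ∧
    cross (p - 2) f₁ f₂ u v = N}

end Pool.Agent.C24e09
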