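import Mathlib
import Pool.Agent.Lib.MP_c24e09_co.Bound

/-!
# The case in which one of the two power maps is the identity
-/

set_option autoImplicit false
open Finset
open scoped Pointwise

namespace Pool.Agent.C24e09

variable {p : ℕ} [Fact p.Prime]

theorem linear_case {r : ℕ} (hr : 0 < r) {A B : ZMod p} (S : Finset (ZMod p))
    (hS : ∀ x ∈ S, x ≠ 0 ∧ A * x ^ r + B * (1 - x) = 1)
    (hm : (p - 1) / Nat.gcd (r - 1) (p - 1) < #S) :
    B = 1 ∧ ∀ x ∈ S, A * x ^ (r - 1) = 1 := by
  have hB : B = 1 := by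
    by_contra hB
    have h1 : #S ≤ #(({x : ZMod p | x ≠ 0} : Finset (ZMod p)).image (· ^ (r - 1))) := by
      apply card_le_card_of_injOn (· ^ (r - 1))
      · intro x hx
        exact mem_image_of_mem (· ^ (r - 1)) (mem_filter.mpr ⟨mem_univ _, (hS x hx).1⟩)
      · intro x hx y hy hxy
        have e1 := (hS x hx).2
        have e2 := (hS y hy).2
        have e3 : x ^ (r - 1) = y ^ (r - 1) := hxy
        rw [pow_pred_mul hr] at e1 e2
        rw [← e3] at e2
        by_contra hne
        have h2 : (A * x ^ (r - 1) - B) * (x - y) = 0 := by linear_combination e1 - e2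
        rcases mul_eq_zero.mp h2 with h | h
        · apply hB
          linear_combination e1 - x * h
        · exact hne (sub_eq_zero.mp h)
    have h2 := card_values (p := p) (r - 1)
    omega
  refine ⟨hB, fun x hx => ?_⟩
  have e1 := (hS x hx).2
  rw [hB, pow_pred_mul hr] at e1
  have h3 : (A * x ^ (r - 1) - 1) * x = 0 := by linear_combination e1
  rcases mul_eq_zero.mp h3 with h | h
  · exact sub_eq_zero.mp h
  · exact absurd h (hS x hx).1

/-- Integer version: `K` is a set of exponents in a window. -/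
theorem window_int {n r d m : ℕ} (hrn : r.Coprime n) (hr : 0 < r)
    (hd : d = Nat.gcd (r - 1) n) (hdm : d * m = n) (hd0 : 0 < d) (hmd : m ≤ d) (hm0 : 0 < m)
    (K : Finset ℕ) (w : ℤ)
    (hK : ∀ k ∈ K, 1 ≤ k ∧ k ≤ n - 1 ∧ 1 ≤ (k : ℤ) + w ∧ (k : ℤ) + w ≤ (n : ℤ) - 1 ∧
      (n : ℤ) ∣ (k : ℤ) * ((r : ℤ) - 1) + r * w) : #K ≤ d - 1 := by
  rcases K.eq_empty_or_nonempty with rfl | ⟨k₀, hk₀⟩
  · rw [card_empty]
    exact Nat.zero_le _
  obtain ⟨e, he⟩ : d ∣ r - 1 := hd ▸ Nat.gcd_dvd_left _ _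
  have hre : (r : ℤ) - 1 = d * e := by
    have : r = d * e + 1 := by omega
    rw [this]
    push_cast
    ring
  have hnZ : (n : ℤ) = d * m := by
    rw [← hdm]
    push_cast
    ring
  have hcop : IsCoprime (m : ℤ) (e : ℤ) := by
    rw [Nat.isCoprime_iff_coprime]
    have h1 : Nat.gcd (d * e) (d * m) = d := by rw [← he, hdm, ← hd]
    rw [Nat.gcd_mul_left] at h1
    have h2 : Nat.gcd e m = 1 := by
      have h3 : d * Nat.gcd e m = d * 1 := by rw [h1, mul_one]
      exact Nat.eq_of_mul_eq_mul_left hd0 h3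
    rw [Nat.coprime_comm]
    exact h2
  -- `d ∣ w`
  have hdw : (d : ℤ) ∣ w := by
    obtain ⟨-, -, -, -, h⟩ := hK k₀ hk₀
    have h1 : (d : ℤ) ∣ (k₀ : ℤ) * ((r : ℤ) - 1) + r * w :=
      (Dvd.intro _ hnZ.symm).trans h
    have h2 : (d : ℤ) ∣ (k₀ : ℤ) * ((r : ℤ) - 1) := by
      rw [hre]
      exact ⟨k₀ * e, by ring⟩
    have h3 : (d : ℤ) ∣ r * w := (dvd_add_right h2).mp h1
    have h4 : IsCoprime (d : ℤ) (r : ℤ) := by
      rw [Nat.isCoprime_iff_coprime]
      exact (hrn.coprime_dvd_right (Dvd.intro _ hdm)).symm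
    exact h4.dvd_of_dvd_mul_left h3
  -- congruence
  have hcong : ∀ k ∈ K, ∀ k' ∈ K, (m : ℤ) ∣ (k : ℤ) - k' := by
    intro k hk k' hk'
    obtain ⟨-, -, -, -, h⟩ := hK k hk
    obtain ⟨-, -, -, -, h'⟩ := hK k' hk'
    have h1 := dvd_sub h h'
    have h2 : (k : ℤ) * ((r : ℤ) - 1) + r * w - (k' * ((r : ℤ) - 1) + r * w) =
        d * (((k : ℤ) - k') * e) := by
      rw [hre]
      ring
    rw [h2, hnZ] at h1
    have h3 := Int.dvd_of_mul_dvd_mul_left (by exact_mod_cast hd0.ne') h1
    exact hcop.dvd_of_dvd_mul_right h3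
  have hinj : Set.InjOn (· / m) (K : Set ℕ) := by
    intro k hk k' hk' h
    have h1 := hcong k hk k' hk'
    have h2 : k % m = k' % m := by
      have h3 : (k : ℤ) ≡ k' [ZMOD m] := (Int.modEq_iff_dvd.mpr h1).symm
      have h4 : (k : ℤ) % m = (k' : ℤ) % m := h3
      exact_mod_cast h4
    have h3 : k / m = k' / m := h
    rw [← Nat.div_add_mod k m, ← Nat.div_add_mod k' m, h2, h3]
  have hdvd : ∀ z : ℤ, (d : ℤ) ∣ z → 0 < z → (d : ℤ) ≤ z := fun z h1 h2 => Int.le_of_dvd h2 h1
  have hmdZ : (m : ℤ) ≤ d := by exact_mod_cast hmd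
  have hm0Z : (0 : ℤ) < m := by exact_mod_cast hm0
  rcases lt_trichotomy w 0 with hw | hw | hw
  · -- `w < 0`
    have hw' := hdvd (-w) (dvd_neg.mpr hdw) (by omega)
    have h1 : #K ≤ #(Icc 1 (d - 1)) := by
      apply card_le_card_of_injOn (· / m) _ hinj
      intro k hk
      obtain ⟨h1, h2, h3, h4, -⟩ := hK k hk
      have h5 : m ≤ k := by omega
      rw [mem_coe, mem_Icc]
      constructor
      · exact (Nat.one_le_div_iff hm0).mpr h5
      · have : k / m < d := by
          rw [Nat.div_lt_iff_lt_mul hm0, hdm]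
          omega
        exact Nat.le_sub_one_of_lt this
    rwa [Nat.card_Icc, Nat.add_sub_cancel] at h1
  · subst hw
    have h1 : #K ≤ #(Icc 1 (d - 1)) := by
      apply card_le_card_of_injOn (· / m) _ hinj
      intro k hk
      obtain ⟨h1, h2, h3, h4, h5⟩ := hK k hk
      have h6 : (m : ℤ) ∣ k := by
        rw [mul_zero, add_zero, hre, hnZ] at h5
        have h7 : (d : ℤ) * m ∣ d * (k * e) := by
          refine h5.trans (dvd_of_eq ?_)
          ring
        have h8 := Int.dvd_of_mul_dvd_mul_left (by exact_mod_cast hd0.ne') h7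
        exact hcop.dvd_of_dvd_mul_right h8
      have h7 : m ∣ k := by exact_mod_cast h6
      have h8 : m ≤ k := Nat.le_of_dvd (by omega) h7
      rw [mem_coe, mem_Icc]
      constructor
      · exact (Nat.one_le_div_iff hm0).mpr h8
      · have : k / m < d := by
          rw [Nat.div_lt_iff_lt_mul hm0, hdm]
          omega
        exact Nat.le_sub_one_of_lt this
    rwa [Nat.card_Icc, Nat.add_sub_cancel] at h1
  · have hw' := hdvd w hdw hw
    have h1 : #K ≤ #(range (d - 1)) := by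
      apply card_le_card_of_injOn (· / m) _ hinj
      intro k hk
      obtain ⟨h1, h2, h3, h4, -⟩ := hK k hk
      rw [mem_coe, mem_range]
      change k / m < d - 1
      rw [Nat.div_lt_iff_lt_mul hm0]
      have h5 : (d - 1) * m = n - m := by rw [Nat.sub_mul, hdm, one_mul]
      rw [h5]
      omega
    rwa [card_range] at h1

end Pool.Agent.C24e09
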