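import Mathlib
import Pool.Agent.Lib.MP_c24e09_co.Defs
import Pool.Agent.Lib.MP_c24e09_co.Window

/-!
# The upper bound for Golomb permutations
-/

set_option autoImplicit false
open Finset
open scoped Pointwise

namespace Pool.Agent.C24e09

open scoped Classical in
/-- The indices counted by the cross-correlation. -/
noncomputable def Idx (n : ℕ) (f g : ℕ → ℕ) (u v : ℤ) : Finset ℕ :=
  {i ∈ Icc 1 n | ∃ j ∈ Icc 1 n, (j : ℤ) = i + u ∧ (g j : ℤ) = f i + v}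

theorem mem_Idx {n : ℕ} {f g : ℕ → ℕ} {u v : ℤ} {i : ℕ} : i ∈ Idx n f g u v ↔
    (1 ≤ i ∧ i ≤ n) ∧ ∃ j : ℕ, (1 ≤ j ∧ j ≤ n) ∧ (j : ℤ) = i + u ∧ (g j : ℤ) = f i + v := by
  simp only [Idx, mem_filter, mem_Icc]

theorem cross_eq (n : ℕ) (f g : ℕ → ℕ) (u v : ℤ) : cross n f g u v = #(Idx n f g u v) := by
  unfold cross
  have h : {z : ℤ × ℤ | ∃ i : ℕ, 1 ≤ i ∧ i ≤ n ∧ z = ((f i : ℤ) + v, (i : ℤ) + u)} ∩
      {z : ℤ × ℤ | ∃ i : ℕ, 1 ≤ i ∧ i ≤ n ∧ z = ((g i : ℤ), (i : ℤ))} =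
      (fun i : ℕ => ((f i : ℤ) + v, (i : ℤ) + u)) '' (Idx n f g u v : Set ℕ) := by
    ext z
    constructor
    · rintro ⟨⟨i, hi1, hi2, rfl⟩, ⟨j, hj1, hj2, hj⟩⟩
      rw [Prod.mk.injEq] at hj
      refine ⟨i, ?_, rfl⟩
      rw [mem_coe, mem_Idx]
      exact ⟨⟨hi1, hi2⟩, j, ⟨hj1, hj2⟩, hj.2.symm, hj.1.symm⟩
    · rintro ⟨i, hi, rfl⟩
      rw [mem_coe, mem_Idx] at hi
      obtain ⟨⟨hi1, hi2⟩, j, hj, h1, h2⟩ := hi
      exact ⟨⟨i, hi1, hi2, rfl⟩, ⟨j, hj.1, hj.2, Prod.ext h2.symm h1.symm⟩⟩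
  rw [h, Set.ncard_image_of_injective, Set.ncard_coe_finset]
  intro i j hij
  have := congrArg Prod.snd hij
  simp only at this
  omega

variable {p : ℕ} [Fact p.Prime]

theorem ne_zero_of_order {α : ZMod p} (hp : 3 ≤ p) (h : orderOf α = p - 1) : α ≠ 0 := by
  rintro rfl
  rw [orderOf_zero] at h
  omega

theorem pow_eq_iff_of_order {α : ZMod p} (h : orderOf α = p - 1) {i j : ℕ}
    (hi : i < p - 1) (hj : j < p - 1) (hij : α ^ i = α ^ j) : i = j :=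
  pow_injOn_Iio_orderOf (h ▸ hi : i ∈ Set.Iio (orderOf α)) (h ▸ hj : j ∈ Set.Iio (orderOf α)) hij

/-- Another primitive root is a power with exponent coprime to `p - 1`. -/
theorem exists_exponent {α β : ZMod p} (hp : 3 ≤ p) (hα : orderOf α = p - 1)
    (hβ : orderOf β = p - 1) : ∃ r : ℕ, 0 < r ∧ r.Coprime (p - 1) ∧ β = α ^ r := by
  have h1 : IsPrimitiveRoot α (p - 1) := hα ▸ IsPrimitiveRoot.orderOf α
  have h2 : IsPrimitiveRoot β (p - 1) := hβ ▸ IsPrimitiveRoot.orderOf β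
  have : NeZero (p - 1) := ⟨by omega⟩
  obtain ⟨r, -, hr⟩ := h1.eq_pow_of_pow_eq_one h2.pow_eq_one
  have h3 : r.Coprime (p - 1) := (h1.pow_iff_coprime (by omega) r).mp (hr ▸ h2)
  refine ⟨r, ?_, h3, hr.symm⟩
  rcases Nat.eq_zero_or_pos r with rfl | h
  · rw [Nat.coprime_zero_left] at h3
    omega
  · exact h

theorem dvd_of_zpow_eq_one {α : ZMod p} (hp : 3 ≤ p) (hα : orderOf α = p - 1) {z : ℤ}
    (h : α ^ z = 1) : ((p - 1 : ℕ) : ℤ) ∣ z := by
  have h0 := ne_zero_of_order hp hα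
  have h1 : (Units.mk0 α h0) ^ z = 1 := by
    ext
    rw [Units.val_zpow_eq_zpow_val]
    exact h
  have h2 : orderOf (Units.mk0 α h0) = p - 1 := by
    rw [← orderOf_units]
    exact hα
  rw [← h2]
  exact orderOf_dvd_iff_zpow_eq_one.mpr h1

/-- The window argument for a set of exponents. -/
theorem window {γ : ZMod p} (hp : 5 ≤ p) (hγ : orderOf γ = p - 1) {r : ℕ}
    (hr : r.Coprime (p - 1)) (hr0 : 0 < r)
    (hmd : (p - 1) / Nat.gcd (r - 1) (p - 1) ≤ Nat.gcd (r - 1) (p - 1)) (K : Finset ℕ) (w : ℤ)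
    (hK : ∀ k ∈ K, 1 ≤ k ∧ k ≤ p - 2 ∧ 1 ≤ (k : ℤ) + w ∧ (k : ℤ) + w ≤ (p : ℤ) - 2 ∧
      (γ ^ r) ^ w * (γ ^ k) ^ (r - 1) = 1) : #K ≤ Nat.gcd (r - 1) (p - 1) - 1 := by
  have hγ0 := ne_zero_of_order (by omega) hγ
  have hd0 : 0 < Nat.gcd (r - 1) (p - 1) := Nat.gcd_pos_of_pos_right _ (by omega)
  apply window_int hr hr0 rfl (Nat.mul_div_cancel' (Nat.gcd_dvd_right _ _)) hd0 hmd
    (Nat.div_pos (Nat.le_of_dvd (by omega) (Nat.gcd_dvd_right _ _)) hd0) K w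
  intro k hk
  obtain ⟨h1, h2, h3, h4, h5⟩ := hK k hk
  refine ⟨h1, by omega, h3, by omega, ?_⟩
  apply dvd_of_zpow_eq_one (by omega) hγ
  have e : (k : ℤ) * ((r : ℤ) - 1) + r * w = r * w + ((k * (r - 1) : ℕ) : ℤ) := by
    push_cast
    rw [Nat.cast_sub hr0]
    push_cast
    ring
  rw [e, zpow_add₀ hγ0, zpow_natCast, zpow_mul, zpow_natCast, pow_mul]
  exact h5

theorem small_index {N m d p : ℕ} (hp : 2 ≤ p) (h8 : 2 ^ 15 * p ^ 7 < N ^ 8) (hN : N ≤ p)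
    (hdm : d * m = p - 1) (h : N ^ 2 * m ≤ 8 * p ^ 2) : m < N ∧ m ≤ d := by
  constructor
  · by_contra hcon
    push Not at hcon
    have h1 : N ^ 8 ≤ 8 * p ^ 7 := by
      calc N ^ 8 = N ^ 2 * N * N ^ 5 := by ring
        _ ≤ N ^ 2 * m * p ^ 5 := by gcongr
        _ ≤ 8 * p ^ 2 * p ^ 5 := by gcongr
        _ = 8 * p ^ 7 := by ring
    have h2 : 8 * p ^ 7 ≤ 2 ^ 15 * p ^ 7 := Nat.mul_le_mul_right _ (by norm_num)
    omega
  · by_contra hcon
    push Not at hcon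
    have h1 : p ≤ m * m := by
      have h2 : (d + 1) * m ≤ m * m := Nat.mul_le_mul_right _ hcon
      have h3 : (d + 1) * m = d * m + m := by ring
      omega
    have h2 : p * N ^ 8 ≤ p * (64 * p ^ 7) := by
      calc p * N ^ 8 ≤ (m * m) * N ^ 8 := Nat.mul_le_mul_right _ h1
        _ = (N ^ 2 * m) * (N ^ 2 * m) * N ^ 4 := by ring
        _ ≤ (8 * p ^ 2) * (8 * p ^ 2) * p ^ 4 := by gcongr
        _ = p * (64 * p ^ 7) := by ring
    have h3 := Nat.le_of_mul_le_mul_left h2 (by omega)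
    have h4 : 64 * p ^ 7 ≤ 2 ^ 15 * p ^ 7 := Nat.mul_le_mul_right _ (by norm_num)
    omega

/-- **Upper bound for Golomb permutations.** -/
theorem g2_upper (hp : 5 ≤ p) {t : ℕ} (ht2 : 2 * t ∣ p - 1) (ht1 : 2 ≤ t)
    (ht : ∀ q : ℕ, q.Prime → 2 * q ∣ p - 1 → t ≤ q)
    {α₁ β₁ α₂ β₂ : ZMod p} {f₁ f₂ : ℕ → ℕ} (h₁ : IsG2 p α₁ β₁ f₁) (h₂ : IsG2 p α₂ β₂ f₂)
    (hne : ∃ i : ℕ, 1 ≤ i ∧ i ≤ p - 2 ∧ f₁ i ≠ f₂ i) (u v : ℤ)
    (hL : 2 ^ 4490 * p ^ 4441 < cross (p - 2) f₁ f₂ u v ^ 4442) :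
    cross (p - 2) f₁ f₂ u v < (p - 1) / t := by
  rw [cross_eq] at hL ⊢
  set I := Idx (p - 2) f₁ f₂ u v with hI
  obtain ⟨hα₁, hβ₁, hf₁⟩ := h₁
  obtain ⟨hα₂, hβ₂, hf₂⟩ := h₂
  have hp3 : 3 ≤ p := by omega
  have hα₁0 := ne_zero_of_order hp3 hα₁
  have hβ₁0 := ne_zero_of_order hp3 hβ₁
  have hα₂0 := ne_zero_of_order hp3 hα₂
  have hβ₂0 := ne_zero_of_order hp3 hβ₂
  obtain ⟨r, hr0, hr, hαr⟩ := exists_exponent hp3 hα₁ hα₂
  obtain ⟨s, hs0, hs, hβs⟩ := exists_exponent hp3 hβ₁ hβ₂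
  set A := α₂ ^ u with hA
  set B := β₂ ^ v with hB
  have hA0 : A ≠ 0 := zpow_ne_zero _ hα₂0
  have hB0 : B ≠ 0 := zpow_ne_zero _ hβ₂0
  set S := I.image (α₁ ^ ·) with hS
  have hScard : #S = #I := by
    rw [hS, card_image_of_injOn]
    intro i hi j hj hij
    rw [mem_coe, hI, mem_Idx] at hi hj
    exact pow_eq_iff_of_order hα₁ (by omega) (by omega) hij
  -- the key identity
  have hkey : ∀ i ∈ I, α₁ ^ i ≠ 0 ∧ α₁ ^ i ≠ 1 ∧ A * (α₁ ^ i) ^ r + B * (1 - α₁ ^ i) ^ s = 1 := by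
    intro i hi
    rw [hI, mem_Idx] at hi
    obtain ⟨⟨hi1, hi2⟩, j, ⟨hj1, hj2⟩, hju, hjv⟩ := hi
    refine ⟨pow_ne_zero _ hα₁0, ?_, ?_⟩
    · intro h
      have := pow_eq_iff_of_order hα₁ (i := i) (j := 0) (by omega) (by omega)
        (by rw [h, pow_zero])
      omega
    · obtain ⟨-, -, e1⟩ := hf₁ i hi1 hi2
      obtain ⟨-, -, e2⟩ := hf₂ j hj1 hj2
      have e3 : 1 - α₁ ^ i = β₁ ^ f₁ i := by linear_combination -e1
      have e4 : A * (α₁ ^ i) ^ r = α₂ ^ j := by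
        have : α₂ ^ j = α₂ ^ (j : ℤ) := (zpow_natCast _ _).symm
        rw [this, hju, zpow_add₀ hα₂0, zpow_natCast, ← hA, hαr, ← pow_mul, ← pow_mul,
          mul_comm r i, mul_comm A]
      have e5 : B * (β₁ ^ f₁ i) ^ s = β₂ ^ f₂ j := by
        have : β₂ ^ f₂ j = β₂ ^ (f₂ j : ℤ) := (zpow_natCast _ _).symm
        rw [this, hjv, zpow_add₀ hβ₂0, zpow_natCast, ← hB, hβs, ← pow_mul, ← pow_mul,
          mul_comm s (f₁ i), mul_comm B]
      rw [e3, e4, e5]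
      exact e2
  have hcurve : ∀ x ∈ S, OnCurve r s A B x := by
    intro x hx
    rw [hS, mem_image] at hx
    obtain ⟨i, hi, rfl⟩ := hx
    exact hkey i hi
  rw [← hScard] at hL ⊢
  by_cases hr1 : (p - 1) ∣ (r - 1)
  · by_cases hs1 : (p - 1) ∣ (s - 1)
    · -- both exponents are `1`: the permutations coincide
      exfalso
      have eα : α₂ = α₁ := by
        obtain ⟨k, hk⟩ := hr1
        rw [hαr, pow_pred_mul hr0, hk, pow_mul, pow_pm1 hα₁0, one_pow, one_mul]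
      have eβ : β₂ = β₁ := by
        obtain ⟨k, hk⟩ := hs1
        rw [hβs, pow_pred_mul hs0, hk, pow_mul, pow_pm1 hβ₁0, one_pow, one_mul]
      obtain ⟨i, hi1, hi2, hi⟩ := hne
      apply hi
      obtain ⟨a1, a2, a3⟩ := hf₁ i hi1 hi2
      obtain ⟨b1, b2, b3⟩ := hf₂ i hi1 hi2
      rw [eα, eβ] at b3
      exact pow_eq_iff_of_order hβ₁ (by omega) (by omega) (by linear_combination a3 - b3)
    · -- `r = 1`, `s ≠ 1`
      obtain ⟨-, hfs⟩ := fixed_both hp3 hr hs hA0 hB0 S hcurve hL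
      have hSp : #S ≤ p := by
        calc #S ≤ #(univ : Finset (ZMod p)) := card_le_univ _
          _ = p := by rw [card_univ, ZMod.card]
      have h8 := hL8 hSp hL
      clear hL
      have hds := Nat.mul_div_cancel' (Nat.gcd_dvd_right (s - 1) (p - 1))
      obtain ⟨hmN, hmd⟩ := small_index (by omega) h8 hSp hds hfs
      have hcard' : #(S.image (1 - ·)) = #S := card_image_of_injective _ sub_right_injective
      obtain ⟨hA1, hB1⟩ := linear_case (A := B) (B := A) hs0 (S.image (1 - ·)) (by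
        intro y hy
        obtain ⟨x, hx, rfl⟩ := mem_image.mp hy
        obtain ⟨c1, c2, c3⟩ := hcurve x hx
        refine ⟨sub_ne_zero.mpr c2.symm, ?_⟩
        obtain ⟨k, hk⟩ := hr1
        rw [pow_pred_mul hr0, hk, pow_mul, pow_pm1 c1, one_pow, one_mul] at c3
        linear_combination c3) (by rw [hcard']; exact hmN)
      have hinj : Set.InjOn f₁ (I : Set ℕ) := by
        intro i hi j hj hij
        rw [mem_coe, hI, mem_Idx] at hi hj
        obtain ⟨-, -, a3⟩ := hf₁ i hi.1.1 hi.1.2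
        obtain ⟨-, -, b3⟩ := hf₁ j hj.1.1 hj.1.2
        rw [hij] at a3
        exact pow_eq_iff_of_order hα₁ (by omega) (by omega) (by linear_combination a3 - b3)
      have hw := window hp hβ₁ hs hs0 hmd (I.image f₁) v (by
        intro k hk
        obtain ⟨i, hi, rfl⟩ := mem_image.mp hk
        have hi' := hi
        rw [hI, mem_Idx] at hi
        obtain ⟨⟨hi1, hi2⟩, j, ⟨hj1, hj2⟩, hju, hjv⟩ := hi
        obtain ⟨a1, a2, a3⟩ := hf₁ i hi1 hi2
        obtain ⟨b1, b2, b3⟩ := hf₂ j hj1 hj2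
        refine ⟨a1, a2, by omega, by omega, ?_⟩
        have e3 : 1 - α₁ ^ i = β₁ ^ f₁ i := by linear_combination -a3
        have := hB1 (1 - α₁ ^ i) (mem_image_of_mem _ (mem_image_of_mem _ hi'))
        rw [e3, hB, hβs] at this
        exact this)
      rw [card_image_of_injOn hinj, ← hScard] at hw
      have hts := t_le hp hs hs1 ht
      have hd0 : 0 < Nat.gcd (s - 1) (p - 1) := Nat.gcd_pos_of_pos_right _ (by omega)
      have h1 : Nat.gcd (s - 1) (p - 1) ≤ (p - 1) / t := by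
        rw [Nat.le_div_iff_mul_le (by omega)]
        calc Nat.gcd (s - 1) (p - 1) * t
            ≤ Nat.gcd (s - 1) (p - 1) * ((p - 1) / Nat.gcd (s - 1) (p - 1)) :=
              Nat.mul_le_mul_left _ hts
          _ = p - 1 := hds
      omega
  · by_cases hs1 : (p - 1) ∣ (s - 1)
    · -- `s = 1`, `r ≠ 1`
      obtain ⟨hfr, -⟩ := fixed_both hp3 hr hs hA0 hB0 S hcurve hL
      have hSp : #S ≤ p := by
        calc #S ≤ #(univ : Finset (ZMod p)) := card_le_univ _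
          _ = p := by rw [card_univ, ZMod.card]
      have h8 := hL8 hSp hL
      clear hL
      have hdr := Nat.mul_div_cancel' (Nat.gcd_dvd_right (r - 1) (p - 1))
      obtain ⟨hmN, hmd⟩ := small_index (by omega) h8 hSp hdr hfr
      obtain ⟨hB1, hA1⟩ := linear_case (A := A) (B := B) hr0 S (by
        intro x hx
        obtain ⟨c1, c2, c3⟩ := hcurve x hx
        refine ⟨c1, ?_⟩
        obtain ⟨k, hk⟩ := hs1
        rw [pow_pred_mul hs0 (1 - x), hk, pow_mul, pow_pm1 (sub_ne_zero.mpr c2.symm), one_pow,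
          one_mul] at c3
        exact c3) hmN
      have hw := window hp hα₁ hr hr0 hmd I u (by
        intro i hi
        have hi' := hi
        rw [hI, mem_Idx] at hi
        obtain ⟨⟨hi1, hi2⟩, j, ⟨hj1, hj2⟩, hju, hjv⟩ := hi
        refine ⟨hi1, hi2, by omega, by omega, ?_⟩
        have := hA1 (α₁ ^ i) (mem_image_of_mem _ hi')
        rw [hA, hαr] at this
        exact this)
      rw [← hScard] at hw
      have htr := t_le hp hr hr1 ht
      have hd0 : 0 < Nat.gcd (r - 1) (p - 1) := Nat.gcd_pos_of_pos_right _ (by omega)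
      have h1 : Nat.gcd (r - 1) (p - 1) ≤ (p - 1) / t := by
        rw [Nat.le_div_iff_mul_le (by omega)]
        calc Nat.gcd (r - 1) (p - 1) * t
            ≤ Nat.gcd (r - 1) (p - 1) * ((p - 1) / Nat.gcd (r - 1) (p - 1)) :=
              Nat.mul_le_mul_left _ htr
          _ = p - 1 := hdr
      omega
    · exact generic_case hp hr hs hA0 hB0 S hcurve hL ht2 ht1 ht hr1 hs1

end Pool.Agent.C24e09
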