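import Mathlib
import Pool.Agent.Lib.MP_c24e09_co.Upper

/-!
# The lower bounds
-/

set_option autoImplicit false
open Finset
open scoped Pointwise

namespace Pool.Agent.C24e09

/-- A suitable exponent. -/
theorem exists_r {N t : ℕ} (hN : 4 ≤ N) (htp : t.Prime) (ht2 : 2 * t ∣ N) :
    ∃ r : ℕ, 0 < r ∧ r.Coprime N ∧ ∀ i : ℕ, N ∣ i * (r - 1) ↔ t ∣ i := by
  obtain ⟨l, hl⟩ := ht2
  set n := 2 * l with hn
  have hNn : N = t * n := by rw [hl, hn]; ring
  have hn0 : 0 < n := by
    rcases Nat.eq_zero_or_pos n with h | h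
    · rw [h, mul_zero] at hNn
      omega
    · exact h
  have hcopn : ∀ k : ℕ, Nat.Coprime (1 + k * n) n := by
    intro k
    rw [Nat.coprime_add_mul_right_left]
    exact Nat.coprime_one_left n
  have main : ∀ k : ℕ, 0 < k → ¬ t ∣ k → Nat.Coprime (1 + k * n) t →
      ∃ r : ℕ, 0 < r ∧ r.Coprime N ∧ ∀ i : ℕ, N ∣ i * (r - 1) ↔ t ∣ i := by
    intro k hk htk hc
    refine ⟨1 + k * n, by omega, ?_, ?_⟩
    · rw [hNn]
      exact hc.mul_right (hcopn k)
    · intro i
      rw [Nat.add_sub_cancel_left, hNn, show i * (k * n) = (i * k) * n by ring,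
        Nat.mul_dvd_mul_iff_right hn0, htp.dvd_mul]
      tauto
  by_cases h1 : t ∣ n
  · apply main 1 one_pos (fun h => htp.one_lt.ne' (Nat.dvd_one.mp h))
    rw [one_mul]
    have h2 := hcopn 1
    rw [one_mul] at h2
    exact h2.coprime_dvd_right h1
  · have ht3 : t ≠ 2 := by
      rintro rfl
      exact h1 ⟨l, hn⟩
    by_cases h2 : t ∣ 1 + n
    · apply main 2 two_pos
      · intro h
        exact ht3 ((Nat.prime_dvd_prime_iff_eq htp Nat.prime_two).mp h)
      · rw [Nat.coprime_comm, htp.coprime_iff_not_dvd]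
        intro h3
        apply h1
        have h4 : 1 + 2 * n = (1 + n) + n := by ring
        rw [h4] at h3
        exact (Nat.dvd_add_right h2).mp h3
    · apply main 1 one_pos (fun h => htp.one_lt.ne' (Nat.dvd_one.mp h))
      rw [one_mul, Nat.coprime_comm, htp.coprime_iff_not_dvd]
      exact h2

variable {p : ℕ} [Fact p.Prime]

theorem exists_primitive : ∃ α : ZMod p, orderOf α = p - 1 := by
  obtain ⟨g, hg⟩ := IsCyclic.exists_generator (α := (ZMod p)ˣ)
  refine ⟨(g : ZMod p), ?_⟩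
  rw [orderOf_units, orderOf_eq_card_of_forall_mem_zpowers hg, Nat.card_eq_fintype_card,
    ZMod.card_units]

theorem order_pow {α : ZMod p} (hp : 3 ≤ p) (hα : orderOf α = p - 1) {r : ℕ}
    (hr : r.Coprime (p - 1)) : orderOf (α ^ r) = p - 1 := by
  have h1 : IsPrimitiveRoot α (p - 1) := hα ▸ IsPrimitiveRoot.orderOf α
  exact ((h1.pow_iff_coprime (by omega) r).mpr hr).eq_orderOf.symm

theorem pow_eq_pow_iff_dvd {α : ZMod p} (hp : 3 ≤ p) (hα : orderOf α = p - 1) {r : ℕ}
    (hr0 : 0 < r) (i : ℕ) : (α ^ r) ^ i = α ^ i ↔ (p - 1) ∣ i * (r - 1) := by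
  have hα0 := ne_zero_of_order hp hα
  rw [← hα, orderOf_dvd_iff_pow_eq_one, ← pow_mul]
  have h1 : α ^ (r * i) = α ^ (i * (r - 1)) * α ^ i := by
    rw [← pow_add]
    congr 1
    obtain ⟨k, rfl⟩ : ∃ k, r = k + 1 := ⟨r - 1, by omega⟩
    rw [Nat.add_sub_cancel]
    ring
  rw [h1]
  constructor
  · intro h
    exact mul_right_cancel₀ (pow_ne_zero i hα0) (h.trans (one_mul _).symm)
  · intro h
    rw [h, one_mul]

/-- Golomb permutations exist. -/
theorem exists_G2 (hp : 3 ≤ p) {α β : ZMod p} (hα : orderOf α = p - 1)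
    (hβ : orderOf β = p - 1) : ∃ f : ℕ → ℕ, IsG2 p α β f := by
  have h1 : IsPrimitiveRoot β (p - 1) := hβ ▸ IsPrimitiveRoot.orderOf β
  have : NeZero (p - 1) := ⟨by omega⟩
  have h2 : ∀ i : ℕ, ∃ j : ℕ, 1 ≤ i → i ≤ p - 2 → 1 ≤ j ∧ j ≤ p - 2 ∧ α ^ i + β ^ j = 1 := by
    intro i
    by_cases hi : 1 ≤ i ∧ i ≤ p - 2
    · have hα0 := ne_zero_of_order hp hα
      have h3 : 1 - α ^ i ≠ 0 := by
        intro h
        have := pow_eq_iff_of_order hα (i := i) (j := 0) (by omega) (by omega)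
          (by rw [pow_zero]; linear_combination -h)
        omega
      obtain ⟨j, hj, hj'⟩ := h1.eq_pow_of_pow_eq_one (pow_pm1 h3)
      refine ⟨j, fun _ _ => ⟨?_, by omega, by rw [hj']; ring⟩⟩
      rcases Nat.eq_zero_or_pos j with rfl | h
      · exfalso
        rw [pow_zero] at hj'
        exact pow_ne_zero i hα0 (by linear_combination hj')
      · exact h
    · exact ⟨0, fun h4 h5 => absurd ⟨h4, h5⟩ hi⟩
  choose f hf using h2
  exact ⟨f, hα, hβ, hf⟩

/-- Welch permutations exist. -/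
theorem exists_W1 (hp : 3 ≤ p) {α : ZMod p} (hα : orderOf α = p - 1) :
    IsW1 p α 0 (fun i => (α ^ (i - 1)).val) := by
  have hα0 := ne_zero_of_order hp hα
  refine ⟨hα, Nat.zero_le _, fun i _ _ => ⟨?_, ?_, ?_⟩⟩
  · have : (α ^ (i - 1)).val ≠ 0 := by
      rw [ne_eq, ZMod.val_eq_zero]
      exact pow_ne_zero _ hα0
    change 1 ≤ (α ^ (i - 1)).val
    omega
  · have := ZMod.val_lt (α ^ (i - 1))
    change (α ^ (i - 1)).val ≤ p - 1
    omega
  · rw [ZMod.natCast_zmod_val, add_zero]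

theorem w1_lower (hp : 5 ≤ p) {t : ℕ} (htp : t.Prime) (ht2 : 2 * t ∣ p - 1) :
    (p - 1) / t ∈ W1Values p := by
  have hp3 : 3 ≤ p := by omega
  obtain ⟨r, hr0, hr, hri⟩ := exists_r (by omega : 4 ≤ p - 1) htp ht2
  obtain ⟨α, hα⟩ := exists_primitive (p := p)
  have hα' := order_pow hp3 hα hr
  have htd : t ∣ p - 1 := (Dvd.intro_left 2 rfl).trans ht2
  have hn := Nat.mul_div_cancel' htd
  refine ⟨α, α ^ r, 0, 0, _, _, 0, 0, exists_W1 hp3 hα, exists_W1 hp3 hα', ?_, ?_⟩
  · intro h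
    have h1 := (pow_eq_pow_iff_dvd hp3 hα hr0 1).mp (by rw [pow_one, pow_one]; exact h.symm)
    rw [hri] at h1
    exact htp.one_lt.ne' (Nat.dvd_one.mp h1)
  · rw [cross_eq]
    have h1 : Idx (p - 1) (fun i => (α ^ (i - 1)).val) (fun i => ((α ^ r) ^ (i - 1)).val) 0 0 =
        (range ((p - 1) / t)).image (fun m => t * m + 1) := by
      ext i
      rw [mem_Idx, mem_image]
      constructor
      · rintro ⟨⟨hi1, hi2⟩, j, ⟨hj1, hj2⟩, hju, hjv⟩
        have hij : j = i := by omega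
        subst hij
        rw [add_zero] at hjv
        have h2 : (α ^ r) ^ (j - 1) = α ^ (j - 1) := by
          apply ZMod.val_injective
          exact_mod_cast hjv
        rw [pow_eq_pow_iff_dvd hp3 hα hr0, hri] at h2
        obtain ⟨m, hm⟩ := h2
        refine ⟨m, ?_, by omega⟩
        rw [mem_range, Nat.lt_div_iff_mul_lt' htd]
        rw [← hm]
        omega
      · rintro ⟨m, hm, rfl⟩
        rw [mem_range, Nat.lt_div_iff_mul_lt' htd] at hm
        refine ⟨⟨by omega, by omega⟩, t * m + 1, ⟨by omega, by omega⟩, by omega, ?_⟩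
        rw [add_zero]
        have h2 : (α ^ r) ^ (t * m + 1 - 1) = α ^ (t * m + 1 - 1) := by
          rw [pow_eq_pow_iff_dvd hp3 hα hr0, hri, Nat.add_sub_cancel]
          exact Dvd.intro _ rfl
        rw [h2]
    rw [h1, card_image_of_injective, card_range]
    intro a b hab
    simp only at hab
    exact Nat.eq_of_mul_eq_mul_left htp.pos (by omega)

theorem g2_lower (hp : 5 ≤ p) {t : ℕ} (htp : t.Prime) (ht2 : 2 * t ∣ p - 1) :
    (p - 1) / t - 1 ∈ G2Values p := by
  have hp3 : 3 ≤ p := by omega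
  obtain ⟨r, hr0, hr, hri⟩ := exists_r (by omega : 4 ≤ p - 1) htp ht2
  obtain ⟨α, hα⟩ := exists_primitive (p := p)
  have hα' := order_pow hp3 hα hr
  have htd : t ∣ p - 1 := (Dvd.intro_left 2 rfl).trans ht2
  have hn := Nat.mul_div_cancel' htd
  obtain ⟨f₁, hf₁⟩ := exists_G2 hp3 hα hα
  obtain ⟨f₂, hf₂⟩ := exists_G2 hp3 hα' hα
  have hiff : ∀ i : ℕ, 1 ≤ i → i ≤ p - 2 → (f₂ i = f₁ i ↔ t ∣ i) := by
    intro i hi1 hi2
    obtain ⟨-, -, h1⟩ := hf₁
    obtain ⟨-, -, h2⟩ := hf₂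
    obtain ⟨a1, a2, a3⟩ := h1 i hi1 hi2
    obtain ⟨b1, b2, b3⟩ := h2 i hi1 hi2
    rw [← hri, ← pow_eq_pow_iff_dvd hp3 hα hr0]
    constructor
    · intro h
      rw [h] at b3
      linear_combination b3 - a3
    · intro h
      rw [h] at b3
      exact pow_eq_iff_of_order hα (by omega) (by omega) (by linear_combination b3 - a3)
  refine ⟨α, α, α ^ r, α, f₁, f₂, 0, 0, hf₁, hf₂, ⟨1, le_refl 1, by omega, ?_⟩, ?_⟩
  · intro h
    have := (hiff 1 (le_refl 1) (by omega)).mp h.symm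
    exact htp.one_lt.ne' (Nat.dvd_one.mp this)
  · rw [cross_eq]
    have h1 : Idx (p - 2) f₁ f₂ 0 0 =
        (range ((p - 1) / t - 1)).image (fun m => t * (m + 1)) := by
      ext i
      rw [mem_Idx, mem_image]
      constructor
      · rintro ⟨⟨hi1, hi2⟩, j, ⟨hj1, hj2⟩, hju, hjv⟩
        have hij : j = i := by omega
        subst hij
        rw [add_zero] at hjv
        have h2 : f₂ j = f₁ j := by exact_mod_cast hjv
        rw [hiff j hj1 hj2] at h2
        obtain ⟨m, hm⟩ := h2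
        have hm0 : m ≠ 0 := by
          rintro rfl
          omega
        obtain ⟨k, rfl⟩ := Nat.exists_eq_succ_of_ne_zero hm0
        refine ⟨k, ?_, hm.symm⟩
        have h3 : k.succ < (p - 1) / t := by
          rw [Nat.lt_div_iff_mul_lt' htd, ← hm]
          omega
        rw [mem_range]
        omega
      · rintro ⟨m, hm, rfl⟩
        rw [mem_range] at hm
        have h3 : m + 1 < (p - 1) / t := by omega
        rw [Nat.lt_div_iff_mul_lt' htd] at h3
        have h4 : 1 ≤ t * (m + 1) := Nat.mul_pos htp.pos (Nat.succ_pos m)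
        refine ⟨⟨h4, by omega⟩, t * (m + 1), ⟨h4, by omega⟩, by omega, ?_⟩
        rw [add_zero, (hiff _ h4 (by omega)).mpr (Dvd.intro _ rfl)]
    rw [h1, card_image_of_injective, card_range]
    intro a b hab
    simp only at hab
    have := Nat.eq_of_mul_eq_mul_left htp.pos hab
    omega

end Pool.Agent.C24e09
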