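import Mathlib
import Pool.Agent.Lib.MP_c24e09_co.Upper

/-!
# The upper bound for Welch permutations
-/

set_option autoImplicit false
open Finset
open scoped Pointwise

namespace Pool.Agent.C24e09

variable {p : ℕ} [Fact p.Prime]

/-- Solutions of `x + v = A x ^ r` with `v ≠ 0`: ratios determine the solutions. -/
theorem welch_ratio (hp : 3 ≤ p) {r : ℕ} (hr : r.Coprime (p - 1)) {A v : ZMod p} (hv : v ≠ 0)
    (S : Finset (ZMod p)) (hS : ∀ x ∈ S, x ≠ 0 ∧ x + v = A * x ^ r) :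
    #S * #S - #S ≤ p - 2 := by
  rw [← offDiag_card]
  have hT : #(((univ : Finset (ZMod p)).erase 0).erase 1) = p - 2 := by
    rw [card_erase_of_mem (mem_erase.mpr ⟨one_ne_zero, mem_univ (1 : ZMod p)⟩),
      card_erase_of_mem (mem_univ _), card_univ, ZMod.card]
    omega
  rw [← hT]
  apply card_le_card_of_injOn (fun z => z.2 / z.1)
  · intro z hz
    rw [mem_coe, mem_offDiag] at hz
    obtain ⟨h1, h2, h3⟩ := hz
    rw [mem_coe, mem_erase, mem_erase]
    refine ⟨?_, div_ne_zero (hS _ h2).1 (hS _ h1).1, mem_univ _⟩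
    intro h
    exact h3 ((div_eq_one_iff_eq (hS _ h1).1).mp h).symm
  · intro z hz w hw hzw
    rw [mem_coe, mem_offDiag] at hz hw
    obtain ⟨h1, h2, h3⟩ := hz
    obtain ⟨k1, k2, k3⟩ := hw
    have hz0 := (hS _ h1).1
    have hw0 := (hS _ k1).1
    set a := z.2 / z.1 with ha
    have ha' : a = w.2 / w.1 := hzw
    have ez : z.2 = a * z.1 := by rw [ha, div_mul_cancel₀ _ hz0]
    have ew : w.2 = a * w.1 := by rw [ha', div_mul_cancel₀ _ hw0]
    have ha1 : a ≠ 1 := by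
      intro h
      rw [h, one_mul] at ez
      exact h3 ez.symm
    have har : a ^ r ≠ 1 := by
      intro h
      exact ha1 (pow_inj_of_coprime hr hp a 1 (by rw [h, one_pow]))
    have e1 := (hS _ h1).2
    have e2 := (hS _ h2).2
    have e3 := (hS _ k1).2
    have e4 := (hS _ k2).2
    rw [ez, mul_pow] at e2
    rw [ew, mul_pow] at e4
    have f1 : (a ^ r - a) * z.1 = v * (1 - a ^ r) := by linear_combination a ^ r * e1 - e2
    have f2 : (a ^ r - a) * w.1 = v * (1 - a ^ r) := by linear_combination a ^ r * e3 - e4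
    have hne : a ^ r - a ≠ 0 := by
      intro h
      rw [h, zero_mul] at f1
      rcases mul_eq_zero.mp f1.symm with h' | h'
      · exact hv h'
      · exact har (sub_eq_zero.mp h').symm
    have f3 : z.1 = w.1 := mul_left_cancel₀ hne (f1.trans f2.symm)
    exact Prod.ext f3 (by rw [ez, ew, f3])

/-- **Upper bound for Welch permutations.** -/
theorem w1_upper (hp : 5 ≤ p) {t : ℕ} (ht0 : 0 < t)
    (ht : ∀ q : ℕ, q.Prime → 2 * q ∣ p - 1 → t ≤ q)
    {α₁ α₂ : ZMod p} {c₁ c₂ : ℕ} {f₁ f₂ : ℕ → ℕ} (h₁ : IsW1 p α₁ c₁ f₁) (h₂ : IsW1 p α₂ c₂ f₂)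
    (hne : α₁ ≠ α₂) (u v : ℤ) :
    cross (p - 1) f₁ f₂ u v ≤ (p - 1) / t ∨
      cross (p - 1) f₁ f₂ u v * cross (p - 1) f₁ f₂ u v - cross (p - 1) f₁ f₂ u v ≤ p - 2 := by
  rw [cross_eq]
  set I := Idx (p - 1) f₁ f₂ u v with hI
  obtain ⟨hα₁, -, hf₁⟩ := h₁
  obtain ⟨hα₂, -, hf₂⟩ := h₂
  have hp3 : 3 ≤ p := by omega
  have hα₁0 := ne_zero_of_order hp3 hα₁
  have hα₂0 := ne_zero_of_order hp3 hα₂
  obtain ⟨r, hr0, hr, hαr⟩ := exists_exponent hp3 hα₁ hα₂
  set A := α₂ ^ (u + c₂ - c₁) with hA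
  set S := I.image (fun i => α₁ ^ (i - 1 + c₁)) with hS
  have hScard : #S = #I := by
    rw [hS, card_image_of_injOn]
    intro i hi j hj hij
    rw [mem_coe, hI, mem_Idx] at hi hj
    have h1 : α₁ ^ (i - 1) = α₁ ^ (j - 1) := by
      have h2 : α₁ ^ (i - 1 + c₁) = α₁ ^ (j - 1 + c₁) := hij
      rw [pow_add, pow_add] at h2
      exact mul_right_cancel₀ (pow_ne_zero _ hα₁0) h2
    have := pow_eq_iff_of_order hα₁ (by omega) (by omega) h1
    omega
  have hkey : ∀ x ∈ S, x ≠ 0 ∧ x + (v : ZMod p) = A * x ^ r := by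
    intro x hx
    rw [hS, mem_image] at hx
    obtain ⟨i, hi, rfl⟩ := hx
    rw [hI, mem_Idx] at hi
    obtain ⟨⟨hi1, hi2⟩, j, ⟨hj1, hj2⟩, hju, hjv⟩ := hi
    refine ⟨pow_ne_zero _ hα₁0, ?_⟩
    obtain ⟨-, -, e1⟩ := hf₁ i hi1 hi2
    obtain ⟨-, -, e2⟩ := hf₂ j hj1 hj2
    have e3 : ((f₂ j : ℤ) : ZMod p) = ((f₁ i : ℤ) : ZMod p) + (v : ZMod p) := by
      rw [hjv]
      push_cast
      ring
    rw [Int.cast_natCast, Int.cast_natCast, e1, e2] at e3
    rw [← e3, hA]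
    have e4 : α₂ ^ (j - 1 + c₂) = α₂ ^ (((j - 1 + c₂ : ℕ)) : ℤ) := (zpow_natCast _ _).symm
    have e5 : (((j - 1 + c₂ : ℕ)) : ℤ) = (u + c₂ - c₁) + ((i - 1 + c₁ : ℕ) : ℤ) := by
      push_cast
      rw [Nat.cast_sub hj1, Nat.cast_sub hi1, hju]
      push_cast
      ring
    have e6 : α₂ ^ (i - 1 + c₁) = (α₁ ^ (i - 1 + c₁)) ^ r := by
      rw [hαr, ← pow_mul, ← pow_mul, mul_comm]
    rw [e4, e5, zpow_add₀ hα₂0, zpow_natCast, e6]
  rw [← hScard]
  have hr1 : ¬ (p - 1) ∣ (r - 1) := by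
    rintro ⟨k, hk⟩
    apply hne
    rw [hαr, pow_pred_mul hr0, hk, pow_mul, pow_pm1 hα₁0, one_pow, one_mul]
  by_cases hv : (v : ZMod p) = 0
  · left
    have h1 : #S ≤ Nat.gcd (r - 1) (p - 1) := by
      refine le_trans (card_le_card ?_) (card_fibre (r - 1) A⁻¹)
      intro x hx
      obtain ⟨h0, h2⟩ := hkey x hx
      rw [mem_filter]
      refine ⟨mem_univ _, h0, ?_⟩
      apply eq_inv_of_mul_eq_one_right
      rw [hv, add_zero, pow_pred_mul hr0] at h2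
      have h3 : (A * x ^ (r - 1) - 1) * x = 0 := by linear_combination -h2
      rcases mul_eq_zero.mp h3 with h | h
      · exact sub_eq_zero.mp h
      · exact absurd h h0
    have h2 := t_le hp hr hr1 ht
    have hdr := Nat.mul_div_cancel' (Nat.gcd_dvd_right (r - 1) (p - 1))
    refine h1.trans ?_
    rw [Nat.le_div_iff_mul_le ht0]
    calc Nat.gcd (r - 1) (p - 1) * t
        ≤ Nat.gcd (r - 1) (p - 1) * ((p - 1) / Nat.gcd (r - 1) (p - 1)) :=
          Nat.mul_le_mul_left _ h2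
      _ = p - 1 := hdr
  · right
    exact welch_ratio hp3 hr hv S hkey

end Pool.Agent.C24e09
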