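import Mathlib
import Pool.Agent.Lib.MP_c24e09_co.Welch
import Pool.Agent.Lib.MP_c24e09_co.Lower

/-!
# Assembly
-/

set_option autoImplicit false
open Finset

namespace Pool.Agent.C24e09

theorem two_mul_dvd_of_modEq {p q : ℕ} (hp : 1 ≤ p) (h : p ≡ 1 [MOD 2 * q]) : 2 * q ∣ p - 1 :=
  (Nat.modEq_iff_dvd' hp).mp h.symm

theorem modEq_of_two_mul_dvd {p q : ℕ} (hp : 1 ≤ p) (h : 2 * q ∣ p - 1) : p ≡ 1 [MOD 2 * q] :=
  ((Nat.modEq_iff_dvd' hp).mpr h).symm

/-- Every Golomb cross-correlation is either small or at most `(p - 1) / t - 1`. -/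
theorem golomb_all {p t : ℕ} (hp : p.Prime) (hp5 : 5 ≤ p)
    (ht : IsLeast {q : ℕ | q.Prime ∧ p ≡ 1 [MOD 2 * q]} t) {N : ℕ} (hN : N ∈ G2Values p) :
    N ≤ (p - 1) / t - 1 ∨ N ^ 4442 ≤ 2 ^ 4490 * p ^ 4441 := by
  have : Fact p.Prime := ⟨hp⟩
  obtain ⟨⟨htp, htm⟩, htl⟩ := ht
  have ht2 := two_mul_dvd_of_modEq (by omega) htm
  have htl' : ∀ q : ℕ, q.Prime → 2 * q ∣ p - 1 → t ≤ q := fun q hq h =>
    htl ⟨hq, modEq_of_two_mul_dvd (by omega) h⟩
  rcases lt_or_ge (2 ^ 4490 * p ^ 4441) (N ^ 4442) with h | h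
  · left
    obtain ⟨α₁, β₁, α₂, β₂, f₁, f₂, u, v, h₁, h₂, hne, rfl⟩ := hN
    exact Nat.le_sub_one_of_lt (g2_upper hp5 ht2 htp.two_le htl' h₁ h₂ hne u v h)
  · right
    exact h

theorem numeric3 {p t N : ℕ} (hp5 : 5 ≤ p) (hbig : 2 ^ 8932 * t ^ 4442 ≤ p)
    (hN : (p - 1) / t ≤ N) (htd : t ∣ p - 1) : 2 ^ 4490 * p ^ 4441 < N ^ 4442 := by
  have h1 : p < 2 * t * N := by
    have h2 : t * ((p - 1) / t) = p - 1 := Nat.mul_div_cancel' htd
    have h3 : p - 1 ≤ t * N := by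
      rw [← h2]
      exact Nat.mul_le_mul_left _ hN
    have h4 : 2 * t * N = 2 * (t * N) := by ring
    omega
  have hgen : ∀ c : ℕ, c ^ 8932 * t ^ 4442 ≤ p → 0 < c → p < c * t * N →
      c ^ 4490 * p ^ 4441 < N ^ 4442 := by
    intro c hc hc0 hlt
    have h2 : (c * t) ^ 4442 * (c ^ 4490 * p ^ 4441) < (c * t) ^ 4442 * N ^ 4442 := by
      calc (c * t) ^ 4442 * (c ^ 4490 * p ^ 4441) = (c ^ 8932 * t ^ 4442) * p ^ 4441 := by ring
        _ ≤ p * p ^ 4441 := Nat.mul_le_mul_right _ hc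
        _ = p ^ 4442 := by ring
        _ < (c * t * N) ^ 4442 := Nat.pow_lt_pow_left hlt (by norm_num)
        _ = _ := by rw [mul_pow]
    exact Nat.lt_of_mul_lt_mul_left h2
  exact hgen 2 hbig two_pos h1

theorem welch_golomb {p t : ℕ} (hp : p.Prime) (hp5 : 5 ≤ p)
    (ht : IsLeast {q : ℕ | q.Prime ∧ p ≡ 1 [MOD 2 * q]} t) (hbig : 2 ^ 8932 * t ^ 4442 ≤ p) :
    IsGreatest (W1Values p) ((p - 1) / t) ∧ IsGreatest (G2Values p) ((p - 1) / t - 1) := by
  have : Fact p.Prime := ⟨hp⟩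
  obtain ⟨⟨htp, htm⟩, htl⟩ := ht
  have ht2 := two_mul_dvd_of_modEq (by omega) htm
  have htl' : ∀ q : ℕ, q.Prime → 2 * q ∣ p - 1 → t ≤ q := fun q hq h =>
    htl ⟨hq, modEq_of_two_mul_dvd (by omega) h⟩
  have htd : t ∣ p - 1 := (Dvd.intro_left 2 rfl).trans ht2
  have hn := Nat.mul_div_cancel' htd
  refine ⟨⟨w1_lower hp5 htp ht2, ?_⟩, ⟨g2_lower hp5 htp ht2, ?_⟩⟩
  · rintro N ⟨α₁, α₂, c₁, c₂, f₁, f₂, u, v, h₁, h₂, hne, rfl⟩
    rcases w1_upper hp5 htp.pos htl' h₁ h₂ hne u v with h | h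
    · exact h
    · by_contra hcon
      push Not at hcon
      have htt : t * t < p := by
        have h1 : t ^ 2 ≤ t ^ 4442 := Nat.pow_le_pow_right htp.pos (by norm_num)
        have h2 : 2 * t ^ 4442 ≤ 2 ^ 8932 * t ^ 4442 := by
          apply Nat.mul_le_mul_right
          calc 2 = 2 ^ 1 := rfl
            _ ≤ 2 ^ 8932 := Nat.pow_le_pow_right two_pos (by norm_num)
        have h3 : 2 * t ^ 4442 ≤ p := h2.trans hbig
        clear h2 hbig
        have h4 : 0 < t ^ 2 := pow_pos htp.pos 2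
        rw [← sq]
        omega
      clear hbig
      set n := (p - 1) / t with hn'
      have htn : t ≤ n := by
        by_contra hlt
        push Not at hlt
        have h1 : t * n + t ≤ t * t := by
          calc t * n + t = t * (n + 1) := by ring
            _ ≤ t * t := Nat.mul_le_mul_left _ hlt
        have := htp.pos
        omega
      generalize cross (p - 1) f₁ f₂ u v = M at *
      have h5 : M * n ≤ M * M - M := by
        have h6 : M * (n + 1) ≤ M * M := Nat.mul_le_mul_left _ hcon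
        have h7 : M * (n + 1) = M * n + M := by ring
        omega
      have h8 : n * n + n ≤ M * n := by
        calc n * n + n = (n + 1) * n := by ring
          _ ≤ M * n := Nat.mul_le_mul_right _ hcon
      have h9 : t * n ≤ n * n := Nat.mul_le_mul_right _ htn
      omega
  · intro N hN
    by_contra hcon
    push Not at hcon
    have h1 : (p - 1) / t ≤ N := by omega
    have h2 := numeric3 hp5 hbig h1 htd
    obtain ⟨α₁, β₁, α₂, β₂, f₁, f₂, u, v, h₁, h₂, hne, rfl⟩ := hN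
    have h3 := g2_upper hp5 ht2 htp.two_le htl' h₁ h₂ hne u v h2
    clear h2 hbig
    omega

end Pool.Agent.C24e09
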